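import Pool.Agent.MP_f65396_co.h15o.Spec

/-! Statements of the auxiliary steps for graphs of order at most `(1 + ε) n`. -/

set_option autoImplicit false

namespace Pool.Agent.MP_f65396_co.h15l

open Finset
open Pool.Agent.MP_f65396_co.h15o (sg Out2 Ori2S)

/-- The complement graph `h` on the vertex set `U`. -/
structure G1 {V : Type} (U : Finset V) (h : V → V → Prop) [DecidableRel h] (n c : ℕ) : Prop where
  hs : ∀ u v, h u v → h v u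
  hi : ∀ u, ¬ h u u
  hU : U.card = n + c
  hc : 1 ≤ c
  hn : 10 ^ 10 * c ≤ n
  hsum : ∑ u ∈ U, (U.filter (h u)).card + n * (n + 1) = (n + c) * (n + c - 1)

/-- `X` consists of `c - 1` pairwise non-adjacent, nearly isolated vertices. -/
def Tn {V : Type} [DecidableEq V] (U : Finset V) (h : V → V → Prop) [DecidableRel h] (n c : ℕ)
    (X : Finset V) : Prop :=
  X ⊆ U ∧ X.card + 1 = c ∧ (∀ x ∈ X, ∀ v ∈ X, v ≠ x → h x v) ∧
    20000 * ∑ x ∈ X, (U.filter (fun v => v ≠ x ∧ ¬ h x v)).card ≤ n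

/-- Edge-disjoint stars of sizes `t, t - 1, …, 1` inside `X`. -/
structure St {V : Type} (h : V → V → Prop) (X : Finset V) (t : ℕ) (tc : ℕ → V)
    (tl : ℕ → Finset V) : Prop where
  mc : ∀ i < t, tc i ∈ X
  ml : ∀ i < t, ∀ v ∈ tl i, v ∈ X ∧ v ≠ tc i ∧ ¬ h (tc i) v
  cd : ∀ i < t, (tl i).card = t - i
  dj : ∀ i < t, ∀ k < t, ∀ v ∈ tl i, ∀ w ∈ tl k, s(tc i, v) = s(tc k, w) → i = k

/-- The vertex set of the `i`-th third star. -/
def sv {V : Type} [DecidableEq V] (t : ℕ) (tc : ℕ → V) (tl : ℕ → Finset V) (i : ℕ) : Finset V :=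
  if i < t then insert (tc i) (tl i) else ∅

/-- The loss of the `i`-th pair from the top. -/
def tcost {V : Type} [DecidableEq V] (U : Finset V) (h : V → V → Prop) [DecidableRel h]
    (S : ℕ → Finset V) (y u : ℕ → V) (i : ℕ) : ℕ :=
  (U.filter (fun x => h (u i) x ∧ h (y i) x) ∪ S i).card +
    ((range i).filter (fun k => h (u i) (y k))).card +
    ((range i).filter (fun k => h (u i) (u k))).card +
    ((range i).filter (fun k => h (y i) (y k))).card +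
    ((range i).filter (fun k => h (y i) (u k))).card

/-- The special vertices, listed by `g`. -/
structure Dat {V : Type} [DecidableEq V] (U : Finset V) (h : V → V → Prop) [DecidableRel h]
    (c s D t : ℕ) (g : ℕ → V) (S : ℕ → Finset V) : Prop where
  mem : ∀ i < 2 * s + 2 * c + 6 * D, g i ∈ U
  inj : ∀ i < 2 * s + 2 * c + 6 * D, ∀ j < 2 * s + 2 * c + 6 * D, g i = g j → i = j
  deg : ∀ v ∈ U, (∀ i < s, g i ≠ v) → (U.filter (h v)).card ≤ D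
  par : ∀ i < s, h (g i) (g (s + 2 * c + i))
  bot : ∀ j, s + j < c → h (g (s + j)) (g (s + c + j))
  sub : ∀ i, ∀ v ∈ S i, i < t ∧ ∃ k < s, g k = v
  top : ∀ i < 3 * D, tcost U h S (fun k => g (2 * s + 2 * c + k))
    (fun k => g (2 * s + 2 * c + 3 * D + k)) i + 2 ≤ c + (t - i) + i

/-- The size of the star of the `i`-th exceptional vertex. -/
def sg' (N s c t : ℕ) (h : ℕ → ℕ → Prop) [DecidableRel h] (ω : ℕ → ℕ) (S : ℕ → Finset ℕ)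
    (i : ℕ) : ℕ :=
  sg s c h ω i + ((Ico (N - t) N).filter (fun v => i ∈ S v ∧ ¬ h i v)).card

/-- The loss of the top position `N - m + j`. -/
def pcost (N m : ℕ) (h : ℕ → ℕ → Prop) [DecidableRel h] (S : ℕ → Finset ℕ) (j : ℕ) : ℕ :=
  ((range N).filter (fun x => h (N - m + j) x ∧ h j x) ∪ S (N - m + j)).card +
    ((Ioo j m).filter (h (N - m + j))).card + ((Ioo (N - m + j) N).filter (h (N - m + j))).card +
    ((Ioo j m).filter (h j)).card + ((Ioo (N - m + j) N).filter (h j)).card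

/-- The ordered complement graph in the main case. -/
structure H1 (N n c s D B m t : ℕ) (h : ℕ → ℕ → Prop) [DecidableRel h] (ω bf : ℕ → ℕ)
    (S : ℕ → Finset ℕ) : Prop where
  hs : ∀ u v, h u v → h v u
  hi : ∀ u, ¬ h u u
  hN : N = n + c
  hc : 2 ≤ c
  hcD : c ≤ D
  hsD : s ≤ D
  htD : t ≤ D
  hB : 20 * D ≤ B
  hm : m = 150 * B
  hn : 500 * B ≤ n
  hn' : n < 500 * B + 500
  hD : ∀ x, s ≤ x → x < N → ((range N).filter (h x)).card ≤ D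
  hsum : ∑ x ∈ range N, ((range N).filter (h x)).card + n * (n + 1) ≤ N * (N - 1) + t * (t + 1)
  par : ∀ i < s, h i (ω i)
  wr : ∀ i < s, N - m - (3 * B + 2 * D) ≤ ω i ∧ ω i < N - m - (3 * B + 2 * D) + B
  wi : ∀ i < s, ∀ k < s, ω i = ω k → i = k
  f2 : ∀ p, bf p ≤ p - (N - m - (3 * B + 2 * D)) ∧ bf p ≤ 2 * B + 2 * D
  f3 : ∀ p, bf p ≤ bf (p + 1) ∧ bf (p + 1) ≤ bf p + 1
  f4 : ∀ p, N - m ≤ p → bf p = 2 * B + 2 * D
  fw : ∀ i < s, bf (ω i) = sg' N s c t h ω S i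
  sS : ∀ p, ∀ q ∈ S p, q < s ∧ N - t ≤ p
  bot : ∀ j, s ≤ j → j < c → h j (N - m + j)
  top : ∀ j, m - 3 * D ≤ j → j < m →
    pcost N m h S j + 2 ≤ c + (N - m + j + 1 + t - N) + (m - 1 - j)

/-- The ordered complement graph in the degenerate case. -/
structure H2 (N n c D Z : ℕ) (h : ℕ → ℕ → Prop) [DecidableRel h] : Prop where
  hs : ∀ u v, h u v → h v u
  hi : ∀ u, ¬ h u u
  hN : N = n + c
  hc : 1 ≤ c
  hZ : c - 1 ≤ Z
  num : Z + 3 * (D + c + 1) + 1 ≤ N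
  hD : ∀ x, c - 1 ≤ x → x < N → ((range N).filter (h x)).card ≤ D
  hsum : ∑ x ∈ range N, ((range N).filter (h x)).card + n * (n + 1) = N * (N - 1)
  ind : ∀ p < c - 1, ∀ q < c - 1, q ≠ p → h p q
  low : ∀ p, c - 1 ≤ p → p < N → ((range (c - 1)).filter (fun q => ¬ h p q)).card ≤
    ((Ico (c - 1) p).filter (h p)).card
  full : ∀ p, Z ≤ p → p < N → ∀ q < N, (h p q ↔ q < c - 1)

/-- Two stars for every colour, leaving room for a third star on `S p`. -/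
def Out3 (N c t : ℕ) (h : ℕ → ℕ → Prop) (S : ℕ → Finset ℕ) : Prop :=
  ∃ (x z : ℕ → ℕ) (A L : ℕ → Finset ℕ),
  (∀ p, c ≤ p → p < N → x p < N ∧ z p < N) ∧
  (∀ p, c ≤ p → p < N → ∀ y ∈ A p, y < N ∧ y ≠ x p ∧ ¬ h (x p) y) ∧
  (∀ p, c ≤ p → p < N → ∀ y ∈ L p, y < N ∧ y ≠ z p ∧ ¬ h (z p) y ∧ z p ≠ x p ∧ z p ∉ A p ∧
    y ≠ x p ∧ y ∉ A p) ∧
  (∀ p, c ≤ p → p < N → (A p).card + (L p).card + (p + 1 + t - N) + c = p + 1) ∧
  (∀ p, c ≤ p → p + 1 < N → (A p).card ≤ (A (p + 1)).card ∧ (L p).card ≤ (L (p + 1)).card) ∧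
  (∀ p, c ≤ p → p < N → ∀ q, c ≤ q → q < N → ∀ y ∈ A p, ∀ w ∈ A q,
    s(x p, y) = s(x q, w) → p = q) ∧
  (∀ p, c ≤ p → p < N → ∀ q, c ≤ q → q < N → ∀ y ∈ A p, ∀ w ∈ L q, s(x p, y) ≠ s(z q, w)) ∧
  (∀ p, c ≤ p → p < N → ∀ q, c ≤ q → q < N → ∀ y ∈ L p, ∀ w ∈ L q,
    s(z p, y) = s(z q, w) → p = q) ∧
  ∀ p, c ≤ p → p < N → ∀ q ∈ S p, q ≠ x p ∧ q ≠ z p ∧ q ∉ A p ∧ q ∉ L p

/-- An ascending decomposition into star forests covered by three vertices. -/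
def Dec3 {V : Type} (G : SimpleGraph V) (n : ℕ) : Prop :=
  ∃ H : Fin n → SimpleGraph V,
    (⨆ i, H i) = G ∧
    Pairwise (fun i j => Disjoint (H i).edgeSet (H j).edgeSet) ∧
    (∀ i : Fin n, (H i).edgeSet.ncard = i.val + 1) ∧
    (∀ i j : Fin n, j.val = i.val + 1 →
      ∃ f : V → V, Function.Injective f ∧
        ∀ u v : V, (H i).Adj u v → (H j).Adj (f u) (f v)) ∧
    (∀ (i : Fin n) (u v : V), (H i).Adj u v →
      (∀ w : V, (H i).Adj u w → w = v) ∨ ∀ w : V, (H i).Adj v w → w = u) ∧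
    ∀ i : Fin n, ∃ a b d : V, ∀ u v : V, (H i).Adj u v →
      u = a ∨ u = b ∨ u = d ∨ v = a ∨ v = b ∨ v = d

/-- From three stars per colour to the decomposition. -/
def Asm3S : Prop := ∀ (V : Type) [Fintype V] (G : SimpleGraph V) (n : ℕ) (x z y : ℕ → V)
    (A L T : ℕ → Finset V),
  G.edgeSet.ncard = n * (n + 1) / 2 →
  (∀ t < n, ∀ v ∈ A t, G.Adj (x t) v) →
  (∀ t < n, ∀ v ∈ L t, G.Adj (z t) v ∧ z t ≠ x t ∧ z t ∉ A t ∧ v ≠ x t ∧ v ∉ A t) →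
  (∀ t < n, ∀ v ∈ T t, G.Adj (y t) v ∧ y t ≠ x t ∧ y t ≠ z t ∧ y t ∉ A t ∧ y t ∉ L t ∧
    v ≠ x t ∧ v ≠ z t ∧ v ∉ A t ∧ v ∉ L t) →
  (∀ t < n, (A t).card + (L t).card + (T t).card = t + 1) →
  (∀ t, t + 1 < n → (A t).card ≤ (A (t + 1)).card ∧ (L t).card ≤ (L (t + 1)).card ∧
    (T t).card ≤ (T (t + 1)).card) →
  (∀ s < n, ∀ t < n, ∀ u ∈ A s, ∀ v ∈ A t, s(x s, u) = s(x t, v) → s = t) →
  (∀ s < n, ∀ t < n, ∀ u ∈ A s, ∀ v ∈ L t, s(x s, u) ≠ s(z t, v)) →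
  (∀ s < n, ∀ t < n, ∀ u ∈ L s, ∀ v ∈ L t, s(z s, u) = s(z t, v) → s = t) →
  (∀ s < n, ∀ t < n, ∀ u ∈ A s, ∀ v ∈ T t, s(x s, u) ≠ s(y t, v)) →
  (∀ s < n, ∀ t < n, ∀ u ∈ L s, ∀ v ∈ T t, s(z s, u) ≠ s(y t, v)) →
  (∀ s < n, ∀ t < n, ∀ u ∈ T s, ∀ v ∈ T t, s(y s, u) = s(y t, v) → s = t) →
  Dec3 G n

/-- The count of the non-edges outside `c - 1` vertices. -/
def IdS : Prop := ∀ (V : Type) [DecidableEq V] (U : Finset V) (h : V → V → Prop) [DecidableRel h]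
    (n c : ℕ) (X : Finset V), G1 U h n c → X ⊆ U → X.card + 1 = c →
  ∑ v ∈ U \ X, ((U \ X).filter (h v)).card =
    2 * ∑ v ∈ U \ X, (X.filter (fun x => ¬ h v x)).card +
      ∑ x ∈ X, (X.filter (fun v => v ≠ x ∧ ¬ h x v)).card

/-- The second moment bound. -/
def GapS : Prop := ∀ (V : Type) [DecidableEq V] (U : Finset V) (h : V → V → Prop) [DecidableRel h]
    (n c e : ℕ) (X X0 : Finset V), G1 U h n c → (∀ Y, ¬ Tn U h n c Y) →
  (∀ v, v ∈ X ↔ v ∈ U ∧ n / 10000 < (U.filter (h v)).card) →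
  (∀ x, x ∈ X0 ↔ x ∈ X ∧ 9 * (U \ X).card ≤ 10 * ((U \ X).filter (h x)).card) →
  e = ∑ x ∈ X0, (X0.filter (fun v => v ≠ x ∧ ¬ h x v)).card →
  X.card ≤ 30000 * c ∧ X0.card ≤ 2 * c ∧
  (X.card < c → 4 * ((c - 1 - X.card) * (n / 10000)) <
    ∑ v ∈ U \ X, ((U \ X).filter (h v)).card) ∧
  ∑ x ∈ U, ((U \ X).filter (h x)).card ^ 2 +
      (U \ X).card * (168 * (c * (c - 1 - X.card)) + if e = 0 then 211 * c else 0) ≤
    (c - 1) * (U \ X).card ^ 2 + e * (U \ X).card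

/-- The third stars. -/
def StarS : Prop := ∀ (V : Type) [DecidableEq V] (h : V → V → Prop) [DecidableRel h]
    (X : Finset V) (c M e : ℕ), (∀ u v, h u v → h v u) → X.card ≤ 2 * c → 10 ^ 9 * c ≤ M →
  e = ∑ x ∈ X, (X.filter (fun v => v ≠ x ∧ ¬ h x v)).card → 0 < e →
  ∃ (t : ℕ) (tc : ℕ → V) (tl : ℕ → Finset V), St h X t tc tl ∧ t ≤ c ∧
    100 * e + 21000 * c + 19 * M < 81 * (t * M)

/-- The top pairs, chosen from the top. -/
def Top1S : Prop := ∀ (V : Type) [DecidableEq V] (U W F : Finset V) (h : V → V → Prop)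
    [DecidableRel h] (c D t R f : ℕ) (S : ℕ → Finset V) (v0 : V), (∀ u v, h u v → h v u) →
  W ⊆ U → F.card ≤ f → (∀ v ∈ W, (U.filter (h v)).card ≤ D) → 1 ≤ c → (∀ i, S i ⊆ U) →
  (∀ i < R, ∑ x ∈ U, (W.filter (h x)).card ^ 2 +
      ∑ v ∈ S i, (W.card ^ 2 - (W.filter (h v)).card ^ 2) + 4 * (i * D * W.card) +
      (c - 1 + (t - i) + i) * ((2 * (2 * i + f) + 1) * W.card) <
    (c - 1 + (t - i) + i) * W.card ^ 2) →
  ∃ y u : ℕ → V, (∀ i < R, y i ∈ W \ F ∧ u i ∈ W \ F) ∧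
    (∀ i < R, ∀ k < R, (y i = y k → i = k) ∧ (u i = u k → i = k) ∧ y i ≠ u k) ∧
    ∀ i < R, tcost U h S y u i + 2 ≤ c + (t - i) + i

/-- The first choices in the spread case. -/
def SelA1S : Prop := ∀ (V : Type) [DecidableEq V] (U : Finset V) (h : V → V → Prop)
    [DecidableRel h] (n c : ℕ) (X : Finset V), G1 U h n c → (∀ Y, ¬ Tn U h n c Y) →
  (∀ v, v ∈ X ↔ v ∈ U ∧ n / 10000 < (U.filter (h v)).card) →
  2 ≤ c ∧ X.card ≤ 30000 * c ∧ ∃ (t : ℕ) (tc : ℕ → V) (tl : ℕ → Finset V) (a b y u : ℕ → V),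
    St h X t tc tl ∧ t ≤ c ∧
    (∀ j < c - X.card, a j ∈ U \ X ∧ b j ∈ U \ X ∧ h (a j) (b j)) ∧
    (∀ j < c - X.card, ∀ k < c - X.card, (a j = a k → j = k) ∧ (b j = b k → j = k) ∧ a j ≠ b k) ∧
    (∀ i < 40 * c, y i ∈ U \ X ∧ u i ∈ U \ X ∧
      ∀ j < c - X.card, y i ≠ a j ∧ y i ≠ b j ∧ u i ≠ a j ∧ u i ≠ b j) ∧
    (∀ i < 40 * c, ∀ k < 40 * c, (y i = y k → i = k) ∧ (u i = u k → i = k) ∧ y i ≠ u k) ∧
    ∀ i < 40 * c, tcost U h (sv t tc tl) y u i + 2 ≤ c + (t - i) + i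

/-- The special vertices in the spread case. -/
def SelAS : Prop := ∀ (V : Type) [DecidableEq V] (U : Finset V) (h : V → V → Prop)
    [DecidableRel h] (n c : ℕ), G1 U h n c → (∀ Y, ¬ Tn U h n c Y) →
  ∃ (s t : ℕ) (g tc : ℕ → V) (tl : ℕ → Finset V),
    Dat U h c s (n / 10000) t g (sv t tc tl) ∧ St h U t tc tl ∧ 2 ≤ c ∧ s ≤ n / 10000 ∧ t ≤ c

/-- The special vertices in the nearly complete case. -/
def SelBS : Prop := ∀ (V : Type) [DecidableEq V] (U : Finset V) (h : V → V → Prop)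
    [DecidableRel h] (n c : ℕ) (X : Finset V) (u x y y' : V), G1 U h n c → Tn U h n c X →
  u ∈ U \ X → x ∈ X → ¬ h u x → y ∈ U \ X → y' ∈ U \ X → h y y' → y ≠ u → y' ≠ u →
  ∃ g : ℕ → V, Dat U h c (c - 1) (n / 10000) 0 g (fun _ => ∅)

/-- The order of the vertices in the degenerate case. -/
def Sel0S : Prop := ∀ (V : Type) [DecidableEq V] (U : Finset V) (h : V → V → Prop)
    [DecidableRel h] (n c : ℕ) (X : Finset V), G1 U h n c → Tn U h n c X →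
  (∀ u ∈ U \ X, ∀ x ∈ X, ¬ h u x → ∀ y ∈ U \ X, ∀ y' ∈ U \ X, h y y' → y = u ∨ y' = u) →
  ∃ (v : ℕ → V) (Z : ℕ), Set.BijOn v (range (n + c) : Finset ℕ) U ∧
    H2 (n + c) n c (n / 10000) Z (fun p q => h (v p) (v q))

/-- The stars in the degenerate case. -/
def Core0S : Prop := ∀ (N n c D Z : ℕ) (h : ℕ → ℕ → Prop) [DecidableRel h],
  H2 N n c D Z h → Out2 N c h

/-- Sorted blocks. -/
def BlkS : Prop := ∀ (s r β B P : ℕ) (σ : ℕ → ℕ), (∀ i < s, σ i ≤ r) → r + s ≤ B → r ≤ β →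
  ∃ ω bf : ℕ → ℕ, (∀ i < s, P ≤ ω i ∧ ω i < P + B) ∧ (∀ i < s, ∀ k < s, ω i = ω k → i = k) ∧
    (∀ p, bf p ≤ p - P ∧ bf p ≤ β) ∧ (∀ p, bf p ≤ bf (p + 1) ∧ bf (p + 1) ≤ bf p + 1) ∧
    (∀ p, P + β + s ≤ p → bf p = β) ∧ ∀ i < s, bf (ω i) = σ i

/-- From the special vertices to the order. -/
def PlaceS : Prop := ∀ (V : Type) [DecidableEq V] (U : Finset V) (h : V → V → Prop)
    [DecidableRel h] (n c s D t : ℕ) (g : ℕ → V) (S : ℕ → Finset V), (∀ u v, h u v → h v u) →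
  (∀ u, ¬ h u u) → U.card = n + c →
  ∑ u ∈ U, (U.filter (h u)).card + n * (n + 1) ≤ (n + c) * (n + c - 1) + t * (t + 1) →
  Dat U h c s D t g S → 2 ≤ c → c ≤ D → s ≤ D → t ≤ D → 20 * D ≤ n / 500 →
  ∃ (v : ℕ → V) (ω bf : ℕ → ℕ) (S' : ℕ → Finset ℕ), Set.BijOn v (range (n + c) : Finset ℕ) U ∧
    H1 (n + c) n c s D (n / 500) (150 * (n / 500)) t (fun p q => h (v p) (v q)) ω bf S' ∧
    ∀ i < t, ∀ q < n + c, v q ∈ S i → q ∈ S' (n + c - 1 - i)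

/-- Removing the edges of the third stars. -/
def PlusS : Prop := ∀ (V : Type) [DecidableEq V] (U : Finset V) (h k : V → V → Prop)
    [DecidableRel h] [DecidableRel k] (n c s D t : ℕ) (g tc : ℕ → V) (tl : ℕ → Finset V),
  G1 U h n c → Dat U h c s D t g (sv t tc tl) → St h U t tc tl →
  (∀ u v, k u v ↔ h u v ∨ ∃ i < t, (u = tc i ∧ v ∈ tl i) ∨ (v = tc i ∧ u ∈ tl i)) →
  (∀ u v, k u v → k v u) ∧ (∀ u, ¬ k u u) ∧ Dat U k c s D t g (sv t tc tl) ∧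
    ∑ u ∈ U, (U.filter (k u)).card + n * (n + 1) ≤ (n + c) * (n + c - 1) + t * (t + 1)

end Pool.Agent.MP_f65396_co.h15l
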