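import Mathlib.Data.Fintype.EquivFin
import Mathlib.Logic.Equiv.Fintype
import Mathlib.Combinatorics.SimpleGraph.Finite
import Mathlib.Algebra.BigOperators.Fin
import Mathlib.Tactic.FinCases
import Pool.Agent.MP_f65396_co.h15l.Spec

/-! From three stars per colour to the decomposition. -/

set_option autoImplicit false

namespace Pool.Agent.MP_f65396_co.h15l

open Finset

namespace Asm3

lemma inj {V : Type} (v : V) {S T : Finset V} (h : S.card ≤ T.card) :
    ∃ f : V → V, (∀ w ∈ S, f w ∈ T) ∧ Set.InjOn f S := by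
  have : Nonempty V := ⟨v⟩
  obtain ⟨f, h1, h2⟩ := S.finite_toSet.exists_injOn_of_encard_le (t := (T : Set V)) (by
    rw [Set.encard_coe_eq_coe_finsetCard, Set.encard_coe_eq_coe_finsetCard]
    exact_mod_cast h)
  exact ⟨f, fun w hw => h1 hw, h2⟩

/-- leaves `W t` with centres `c t` -/
lemma core {V : Type} [Fintype V] (G : SimpleGraph V) (n : ℕ) (W : ℕ → Finset V) (c : ℕ → V → V)
    (hG : G.edgeSet.ncard = n * (n + 1) / 2) (E0 : ∀ t < n, (W t).card = t + 1)
    (E1 : ∀ t < n, ∀ w ∈ W t, G.Adj (c t w) w)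
    (E2 : ∀ t < n, ∀ w ∈ W t, ∀ w' ∈ W t, w ≠ c t w')
    (E3 : ∀ s < n, ∀ t < n, ∀ w ∈ W s, ∀ w' ∈ W t, s(c s w, w) = s(c t w', w') → s = t)
    (E4 : ∀ t, ∃ a b d, ∀ w, c t w = a ∨ c t w = b ∨ c t w = d)
    (E5 : ∀ t, t + 1 < n → ∃ f : V → V, Set.InjOn f (W t) ∧ ∀ w ∈ W t, f w ∈ W (t + 1) ∧
      f (c t w) = c (t + 1) (f w) ∧ ∀ w' ∈ W t, c (t + 1) (f w) = c (t + 1) (f w') →
        c t w = c t w') : Dec3 G n := by
  classical
  let K : Fin n → SimpleGraph V := fun t =>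
    { Adj := fun u v => ∃ w ∈ W t, s(c t w, w) = s(u, v)
      symm := ⟨fun u v ⟨w, hw, h⟩ => ⟨w, hw, h.trans Sym2.eq_swap⟩⟩
      loopless := ⟨fun u ⟨w, hw, h⟩ => (E1 t t.2 w hw).ne (by
        rcases Sym2.eq_iff.1 h with h | h <;> exact h.1.trans h.2.symm)⟩ }
  let F : ℕ → Finset (Sym2 V) := fun t => (W t).image fun w => s(c t w, w)
  have Ke : ∀ t : Fin n, (K t).edgeSet = F t := fun t => by
    ext e
    induction e using Sym2.ind with
    | h u v => exact (mem_image.trans Iff.rfl).symm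
  have Fc : ∀ t < n, (F t).card = t + 1 := fun t ht => by
    rw [card_image_of_injOn fun w hw w' hw' e => ?_, E0 t ht]
    rcases Sym2.eq_iff.1 e with h | h
    · exact h.2
    · exact absurd h.2 (E2 t ht w hw w' hw')
  have Fd : ∀ s < n, ∀ t < n, s ≠ t → Disjoint (F s) (F t) := fun s hs t ht hst =>
    disjoint_left.2 fun e h h' => by
      obtain ⟨w, hw, rfl⟩ := mem_image.1 h
      obtain ⟨w', hw', e'⟩ := mem_image.1 h'
      exact hst (E3 s hs t ht w hw w' hw' e'.symm)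
  have cov : (((range n).biUnion F : Finset (Sym2 V)) : Set (Sym2 V)) = G.edgeSet := by
    refine Set.eq_of_subset_of_ncard_le (fun e he => ?_) ?_ (Set.toFinite _)
    · obtain ⟨t, ht, he⟩ := mem_biUnion.1 he
      obtain ⟨w, hw, rfl⟩ := mem_image.1 he
      exact E1 t (mem_range.1 ht) w hw
    · rw [hG, Set.ncard_coe_finset, card_biUnion fun s hs t ht =>
        Fd s (mem_range.1 hs) t (mem_range.1 ht), sum_congr rfl fun t ht => Fc t (mem_range.1 ht)]
      have h1 := sum_range_id_mul_two (n + 1)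
      rw [sum_range_succ', Nat.add_sub_cancel, mul_comm (n + 1) n] at h1
      omega
  have leaf : ∀ t : Fin n, ∀ w ∈ W t, ∀ y, (K t).Adj w y → y = c t w := by
    rintro t w hw y ⟨w', hw', h⟩
    rcases Sym2.eq_iff.1 h with h | h
    · exact absurd h.1.symm (E2 t t.2 w hw w' hw')
    · rw [← h.1, h.2]
  refine ⟨K, ?_, fun i j hij => ?_, fun i => ?_, fun i j hij => ?_, fun i u v h => ?_,
    fun i => ?_⟩
  · ext u v
    rw [SimpleGraph.iSup_adj, ← G.mem_edgeSet, ← cov, mem_coe, mem_biUnion]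
    exact ⟨fun ⟨i, h⟩ => ⟨i, mem_range.2 i.2, mem_image.2 h⟩,
      fun ⟨t, ht, h⟩ => ⟨⟨t, mem_range.1 ht⟩, mem_image.1 h⟩⟩
  · simp only [Ke, disjoint_coe]
    exact Fd i i.2 j j.2 fun e => hij (Fin.ext e)
  · rw [Ke, Set.ncard_coe_finset, Fc i i.2]
  · have hj : (i : ℕ) + 1 < n := hij ▸ j.2
    obtain ⟨f, f1, f2⟩ := E5 i hj
    have hi : Set.InjOn f (W i ∪ (W i).image (c i) : Finset V) := by
      intro u hu v hv e
      rcases mem_union.1 hu with hu | hu <;> rcases mem_union.1 hv with hv | hv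
      · exact f1 hu hv e
      · obtain ⟨w, hw, rfl⟩ := mem_image.1 hv
        exact absurd (e.trans (f2 w hw).2.1) (E2 _ hj _ (f2 u hu).1 _ (f2 w hw).1)
      · obtain ⟨w, hw, rfl⟩ := mem_image.1 hu
        exact absurd (e.symm.trans (f2 w hw).2.1) (E2 _ hj _ (f2 v hv).1 _ (f2 w hw).1)
      · obtain ⟨w, hw, rfl⟩ := mem_image.1 hu
        obtain ⟨w', hw', rfl⟩ := mem_image.1 hv
        exact (f2 w hw).2.2 w' hw' ((f2 w hw).2.1.symm.trans (e.trans (f2 w' hw').2.1))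
    obtain ⟨g, hg⟩ := Finset.exists_equiv_extend_of_card_eq (t := (univ : Finset V))
      card_univ.symm (subset_univ _) hi
    refine ⟨fun v => g v, fun u v e => g.injective (Subtype.ext e), ?_⟩
    rintro u v ⟨w, hw, h⟩
    have a1 : (g (c i w) : V) = c (i + 1) (f w) :=
      (hg _ (mem_union_right _ (mem_image_of_mem _ hw))).trans (f2 w hw).2.1
    have a2 : (g w : V) = f w := hg _ (mem_union_left _ hw)
    refine ⟨f w, hij ▸ (f2 w hw).1, ?_⟩
    rw [hij, ← a1, ← a2]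
    exact congrArg (Sym2.map fun v => (g v : V)) h
  · obtain ⟨w, hw, h⟩ := h
    rcases Sym2.eq_iff.1 h with ⟨rfl, rfl⟩ | ⟨rfl, rfl⟩
    · exact Or.inr (leaf i w hw)
    · exact Or.inl (leaf i w hw)
  · obtain ⟨a, b, d, h⟩ := E4 i
    refine ⟨a, b, d, ?_⟩
    rintro u v ⟨w, -, e⟩
    rcases Sym2.eq_iff.1 e with ⟨rfl, rfl⟩ | ⟨rfl, rfl⟩ <;> rcases h w with h | h | h <;> simp [h]

lemma gen {V : Type} [Fintype V] (G : SimpleGraph V) (n : ℕ) (cen : ℕ → Fin 3 → V)
    (lf : ℕ → Fin 3 → Finset V) (hG : G.edgeSet.ncard = n * (n + 1) / 2)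
    (h1 : ∀ t < n, ∀ k, ∀ v ∈ lf t k, G.Adj (cen t k) v)
    (h2 : ∀ t < n, ∀ k l, k ≠ l → ∀ v ∈ lf t k, ∀ w ∈ lf t l,
      v ≠ w ∧ cen t k ≠ cen t l ∧ v ≠ cen t l)
    (h3 : ∀ t < n, ∑ k, (lf t k).card = t + 1)
    (h4 : ∀ t, t + 1 < n → ∀ k, (lf t k).card ≤ (lf (t + 1) k).card)
    (h5 : ∀ s < n, ∀ t < n, ∀ k l, ∀ v ∈ lf s k, ∀ w ∈ lf t l,
      s(cen s k, v) = s(cen t l, w) → s = t) : Dec3 G n := by
  classical
  have ex : ∀ t w, ∃ k : Fin 3, ∀ l, t < n → w ∈ lf t l → k = l := fun t w => by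
    by_cases h : ∃ l, w ∈ lf t l
    · obtain ⟨l, hl⟩ := h
      refine ⟨l, fun m ht hm => ?_⟩
      by_contra e
      exact (h2 t ht l m e w hl w hm).1 rfl
    · exact ⟨0, fun l _ hl => absurd ⟨l, hl⟩ h⟩
  choose ind hind using ex
  have mem : ∀ t w, w ∈ (univ : Finset (Fin 3)).biUnion (lf t) ↔ ∃ k, w ∈ lf t k := fun t w => by
    simp
  have ne : ∀ t < n, ∀ k l, ∀ v ∈ lf t k, ∀ w ∈ lf t l, v ≠ cen t l := fun t ht k l v hv w hw => by
    by_cases e : k = l
    · subst e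
      exact (h1 t ht k v hv).ne'
    · exact (h2 t ht k l e v hv w hw).2.2
  refine core G n (fun t => univ.biUnion (lf t)) (fun t w => cen t (ind t w)) hG
    (fun t ht => ?_) (fun t ht w hw => ?_) (fun t ht w hw w' hw' => ?_)
    (fun s hs t ht w hw w' hw' e => ?_) (fun t => ⟨cen t 0, cen t 1, cen t 2, fun w => ?_⟩)
    fun t ht => ?_
  · rw [card_biUnion fun k _ l _ e => disjoint_left.2 fun v hv hw =>
      (h2 t ht k l e v hv v hw).1 rfl, h3 t ht]
  · obtain ⟨k, hk⟩ := (mem t w).1 hw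
    rw [hind t w k ht hk]
    exact h1 t ht k w hk
  · obtain ⟨k, hk⟩ := (mem t w).1 hw
    obtain ⟨l, hl⟩ := (mem t w').1 hw'
    rw [hind t w' l ht hl]
    exact ne t ht k l w hk w' hl
  · obtain ⟨k, hk⟩ := (mem s w).1 hw
    obtain ⟨l, hl⟩ := (mem t w').1 hw'
    rw [hind s w k hs hk, hind t w' l ht hl] at e
    exact h5 s hs t ht k l w hk w' hl e
  · generalize ind t w = k
    fin_cases k <;> simp
  · have ht' : t < n := by omega
    choose φ p1 p2 using fun k => inj (cen t 0) (h4 t ht k)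
    have ex2 : ∀ v, ∃ u : V, ∀ k, ∀ w ∈ lf t k, v = cen t k → u = cen (t + 1) k := fun v => by
      by_cases h : ∃ k, ∃ w ∈ lf t k, v = cen t k
      · obtain ⟨k, w, hw, e⟩ := h
        refine ⟨cen (t + 1) k, fun l w' hw' e' => ?_⟩
        by_cases kl : k = l
        · rw [kl]
        · exact absurd (e.symm.trans e') (h2 t ht' k l kl w hw w' hw').2.1
      · exact ⟨v, fun k w hw e => absurd ⟨k, w, hw, e⟩ h⟩
    choose ψ hψ using ex2
    let f : V → V := fun v => if ∃ k, v ∈ lf t k then φ (ind t v) v else ψ v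
    have f1 : ∀ k, ∀ v ∈ lf t k, f v = φ k v := fun k v hv =>
      (if_pos ⟨k, hv⟩).trans (by rw [hind t v k ht' hv])
    have f2 : ∀ k, ∀ w ∈ lf t k, f (cen t k) = cen (t + 1) k := fun k w hw =>
      (if_neg fun ⟨l, hl⟩ => ne t ht' l k _ hl w hw rfl).trans (hψ _ k w hw rfl)
    refine ⟨f, fun u hu v hv e => ?_, fun w hw => ?_⟩
    · obtain ⟨k, hk⟩ := (mem t u).1 hu
      obtain ⟨l, hl⟩ := (mem t v).1 hv
      rw [f1 k u hk, f1 l v hl] at e
      by_cases kl : k = l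
      · subst kl
        exact p2 k hk hl e
      · exact absurd e (h2 _ ht k l kl _ (p1 k u hk) _ (p1 l v hl)).1
    · obtain ⟨k, hk⟩ := (mem t w).1 hw
      rw [f1 k w hk, hind t w k ht' hk, hind _ _ k ht (p1 k w hk)]
      refine ⟨(mem _ _).2 ⟨k, p1 k w hk⟩, f2 k w hk, fun w' hw' e => ?_⟩
      obtain ⟨l, hl⟩ := (mem t w').1 hw'
      rw [f1 l w' hl, hind _ _ l ht (p1 l w' hl)] at e
      rw [hind t w' l ht' hl]
      by_cases kl : k = l
      · rw [kl]
      · exact absurd e (h2 _ ht k l kl _ (p1 k w hk) _ (p1 l w' hl)).2.1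

end Asm3

theorem asm3 : Asm3S := by
  intro V _ G n x z y A L T hG hA hL hT hc hm hAA hAL hLL hAT hLT hTT
  refine Asm3.gen G n (fun t => ![x t, z t, y t]) (fun t => ![A t, L t, T t]) hG
    (fun t ht k v hv => ?_) (fun t ht k l kl v hv w hw => ?_) (fun t ht => ?_)
    (fun t ht k => ?_) fun s hs t ht k l v hv w hw e => ?_
  · fin_cases k
    · exact hA t ht v hv
    · exact (hL t ht v hv).1
    · exact (hT t ht v hv).1
  · fin_cases k <;> fin_cases l
    · exact absurd rfl kl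
    · obtain ⟨-, a, b, -, d⟩ := hL t ht w hw
      exact ⟨fun e => d (e ▸ hv), a.symm, fun e => b ((show v = z t from e) ▸ hv)⟩
    · obtain ⟨-, a, -, b, -, -, -, d, -⟩ := hT t ht w hw
      exact ⟨fun e => d (e ▸ hv), a.symm, fun e => b ((show v = y t from e) ▸ hv)⟩
    · obtain ⟨-, a, -, c, d⟩ := hL t ht v hv
      exact ⟨fun e => d (e ▸ hw), a, c⟩
    · exact absurd rfl kl
    · obtain ⟨-, -, a, -, b, -, -, -, d⟩ := hT t ht w hw
      exact ⟨fun e => d (e ▸ hv), a.symm, fun e => b ((show v = y t from e) ▸ hv)⟩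
    · obtain ⟨-, a, -, -, -, c, -, d, -⟩ := hT t ht v hv
      exact ⟨fun e => d (e ▸ hw), a, c⟩
    · obtain ⟨-, -, a, -, -, -, c, -, d⟩ := hT t ht v hv
      exact ⟨fun e => d (e ▸ hw), a, c⟩
    · exact absurd rfl kl
  · rw [Fin.sum_univ_three]
    exact hc t ht
  · fin_cases k
    · exact (hm t ht).1
    · exact (hm t ht).2.1
    · exact (hm t ht).2.2
  · fin_cases k <;> fin_cases l
    · exact hAA s hs t ht v hv w hw e
    · exact absurd e (hAL s hs t ht v hv w hw)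
    · exact absurd e (hAT s hs t ht v hv w hw)
    · exact absurd e.symm (hAL t ht s hs w hw v hv)
    · exact hLL s hs t ht v hv w hw e
    · exact absurd e (hLT s hs t ht v hv w hw)
    · exact absurd e.symm (hAT t ht s hs w hw v hv)
    · exact absurd e.symm (hLT t ht s hs w hw v hv)
    · exact hTT s hs t ht v hv w hw e

end Pool.Agent.MP_f65396_co.h15l
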