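import Pool.Agent.MP_f65396_co.h15l.Spec
import Mathlib.Order.Interval.Finset.Nat

/-! Sorted blocks. -/

set_option autoImplicit false

namespace Pool.Agent.MP_f65396_co.h15l

open Finset

namespace Blk

/-- The indices before `i` in the lexicographic order. -/
def bef (s : ℕ) (σ : ℕ → ℕ) (i : ℕ) : Finset ℕ :=
  (range s).filter (fun k => σ k < σ i ∨ (σ k = σ i ∧ k < i))

/-- The indices with a value below `v`. -/
def low (s : ℕ) (σ : ℕ → ℕ) (v : ℕ) : Finset ℕ := (range s).filter (fun k => σ k < v)

theorem mem_bef {s : ℕ} {σ : ℕ → ℕ} {i k : ℕ} :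
    k ∈ bef s σ i ↔ k < s ∧ (σ k < σ i ∨ (σ k = σ i ∧ k < i)) := by
  rw [bef, mem_filter, mem_range]

theorem mem_low {s : ℕ} {σ : ℕ → ℕ} {v k : ℕ} : k ∈ low s σ v ↔ k < s ∧ σ k < v := by
  rw [low, mem_filter, mem_range]

theorem ins {s : ℕ} {σ : ℕ → ℕ} {i : ℕ} {T : Finset ℕ} (h1 : i ∈ T) (h2 : bef s σ i ⊆ T) :
    (bef s σ i).card < T.card := by
  refine card_lt_card ⟨h2, fun h => ?_⟩
  have := mem_bef.1 (h h1)
  omega

theorem bef_lt {s : ℕ} {σ : ℕ → ℕ} {i : ℕ} (hi : i < s) : (bef s σ i).card < s := by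
  have := ins (s := s) (σ := σ) (mem_range.2 hi) (filter_subset _ _)
  rwa [card_range] at this

theorem bef_mono {s : ℕ} {σ : ℕ → ℕ} {i k : ℕ} (hi : i < s)
    (h : σ i < σ k ∨ (σ i = σ k ∧ i < k)) : (bef s σ i).card < (bef s σ k).card := by
  refine ins (mem_bef.2 ⟨hi, h⟩) fun j hj => ?_
  rw [mem_bef] at hj ⊢
  omega

theorem low_mono {s : ℕ} {σ : ℕ → ℕ} {v w : ℕ} (h : v ≤ w) :
    (low s σ v).card ≤ (low s σ w).card := by
  refine card_le_card fun j hj => ?_
  rw [mem_low] at hj ⊢
  omega

theorem low_le (s : ℕ) (σ : ℕ → ℕ) (v : ℕ) : (low s σ v).card ≤ s := by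
  have := card_filter_le (range s) (fun k => σ k < v)
  rwa [card_range] at this

end Blk

open Blk in
theorem blks : BlkS := by
  intro s r β B P σ h1 h2 h3
  refine ⟨fun i => P + σ i + (bef s σ i).card,
    fun p => ((Icc 1 β).filter (fun v => P + v + (low s σ v).card ≤ p)).card,
    fun i hi => ?_, fun i hi k hk e => ?_, fun p => ⟨?_, ?_⟩, fun p => ⟨?_, ?_⟩,
    fun p hp => ?_, fun i hi => ?_⟩
  · have := bef_lt (σ := σ) hi
    have := h1 i hi
    dsimp only
    omega
  · dsimp only at e
    by_contra hne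
    have a1 := bef_mono (σ := σ) (k := k) hi
    have a2 := bef_mono (σ := σ) (k := i) hk
    omega
  · refine (card_le_card (t := Icc 1 (p - P)) fun v hv => ?_).trans (by simp)
    rw [mem_filter, mem_Icc] at hv
    rw [mem_Icc]
    omega
  · exact (card_filter_le _ _).trans (by simp)
  · refine card_le_card fun v hv => ?_
    rw [mem_filter] at hv ⊢
    exact ⟨hv.1, by omega⟩
  · have k : ((Icc 1 β).filter (fun v => P + v + (low s σ v).card = p + 1)).card ≤ 1 := by
      refine card_le_one.2 fun v hv w hw => ?_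
      rw [mem_filter] at hv hw
      have a1 := low_mono (s := s) (σ := σ) (v := v) (w := w)
      have a2 := low_mono (s := s) (σ := σ) (v := w) (w := v)
      omega
    refine le_trans (card_le_card (t := (Icc 1 β).filter (fun v => P + v + (low s σ v).card ≤ p) ∪
      (Icc 1 β).filter (fun v => P + v + (low s σ v).card = p + 1)) fun v hv => ?_)
      ((card_union_le _ _).trans (Nat.add_le_add_left k _))
    rw [mem_union, mem_filter, mem_filter]
    rw [mem_filter] at hv
    obtain ⟨a1, a2⟩ := hv
    rcases Nat.lt_or_ge (P + v + (low s σ v).card) (p + 1) with h | h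
    · exact Or.inl ⟨a1, by omega⟩
    · exact Or.inr ⟨a1, by omega⟩
  · dsimp only
    rw [filter_true_of_mem fun v hv => ?_]
    · simp
    · have := low_le s σ v
      have := (mem_Icc.1 hv).2
      omega
  · have e : (Icc 1 β).filter (fun v => P + v + (low s σ v).card ≤
        P + σ i + (bef s σ i).card) = Icc 1 (σ i) := by
      ext v
      rw [mem_filter, mem_Icc, mem_Icc]
      have a0 := h1 i hi
      rcases Nat.lt_or_ge (σ i) v with h | h
      · have : (bef s σ i).card < (low s σ v).card := by
          refine ins (mem_low.2 ⟨hi, h⟩) fun j hj => ?_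
          rw [mem_bef] at hj
          rw [mem_low]
          omega
        omega
      · have : (low s σ v).card ≤ (bef s σ i).card := by
          refine card_le_card fun j hj => ?_
          rw [mem_low] at hj
          rw [mem_bef]
          omega
        omega
    dsimp only
    rw [e]
    simp

end Pool.Agent.MP_f65396_co.h15l
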