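import Pool.Agent.MP_f65396_co.h15l.Spec
import Pool.Agent.MP_f65396_co.h15o.Cor1

/-! The second stars in the main case: centres and leaves. -/

set_option autoImplicit false

namespace Pool.Agent.MP_f65396_co.h15l

open Finset
open Pool.Agent.MP_f65396_co.h15o (sg HZ Pad zcase)

/-- The prescribed leaves of the star at the ordinary low vertex `j`. -/
def Pre (N c s D B m : ℕ) (h : ℕ → ℕ → Prop) (ω : ℕ → ℕ) (S : ℕ → Finset ℕ) (j v : ℕ) : Prop :=
  (s ≤ v ∧ v < j ∧ j ≤ v + B ∧ ¬ h v j) ∨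
  (N - m + j < v ∧ v ≤ N - m + j + B ∧ v < N ∧ ¬ h j (v - (N - m)) ∧ ¬ h j v) ∨
  (m - 3 * D ≤ j ∧ v < N - m + j ∧ ¬ (j ≤ v ∧ v < m) ∧ h v (N - m + j) ∧ ¬ h v j ∧
    v ∉ S (N - m + j)) ∨
  (j < s + c ∧ ∃ i < s, v = ω i ∧ ¬ h i j ∧ ¬ h j v)

/-- The leaves of the star at the exceptional vertex `i`. -/
def PreX (N c s : ℕ) (h : ℕ → ℕ → Prop) (ω : ℕ → ℕ) (S : ℕ → Finset ℕ) (i v : ℕ) : Prop :=
  (v < i ∧ ¬ h i v) ∨ (s ≤ v ∧ v < s + c ∧ ¬ h i v) ∨
  (∃ k, i < k ∧ k < s ∧ v = ω k ∧ ¬ h i k ∧ ¬ h i v) ∨ (v < N ∧ i ∈ S v ∧ ¬ h i v)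

/-- The leaf sets. -/
structure HL (N c s D B m : ℕ) (h : ℕ → ℕ → Prop) (ω bf z : ℕ → ℕ) (S L : ℕ → Finset ℕ) :
    Prop where
  b1 : ∀ p < s, (L p).card = p + 1 - c
  b2 : ∀ p, s ≤ p → p < N → (L p).card = bf p
  mem : ∀ p < N, ∀ v ∈ L p, (∃ j, s ≤ j ∧ j < m ∧ p = N - m + j ∧ Pre N c s D B m h ω S j v) ∨
    (∃ i < s, p = ω i ∧ PreX N c s h ω S i v) ∨ Pad N s D B m h z p v
  pre : ∀ j, s ≤ j → j < m → ∀ v, Pre N c s D B m h ω S j v → v ∈ L (N - m + j)
  prex : ∀ i < s, ∀ v, PreX N c s h ω S i v → v ∈ L (ω i)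

variable {N n c s D B m t : ℕ} {h : ℕ → ℕ → Prop} [DecidableRel h] {ω bf z : ℕ → ℕ}
  {S L : ℕ → Finset ℕ}

theorem exists_Z (H : H1 N n c s D B m t h ω bf S) : ∃ z, HZ N c s D B m ω z := by
  classical
  have := H.hN
  have := H.hcD
  have := H.hsD
  have := H.hB
  have := H.hm
  have := H.hn
  have wr := H.wr
  have wi := H.wi
  refine ⟨fun p => if p < s then m + (p - c) else if e : ∃ i < s, ω i = p then e.choose else
    if p < N - m + s then m + s + (p - (N - m - (3 * B + 2 * D))) else p - (N - m),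
    wr, wi, fun p hp => if_pos hp, fun i hi => ?_, fun p h1 h2 h3 => ?_, fun j hj => ?_⟩
  · have a := wr i hi
    have e : ∃ k < s, ω k = ω i := ⟨i, hi, rfl⟩
    rw [if_neg (by omega), dif_pos e]
    exact wi _ e.choose_spec.1 i hi e.choose_spec.2
  · rw [if_neg (by omega), dif_neg fun ⟨i, hi, e⟩ => h3 i hi e, if_pos h2]
  · rw [if_neg (by omega), dif_neg fun ⟨i, hi, e⟩ => by
      have := wr i hi
      omega, if_neg (by omega)]
    omega

theorem exists_L (H : H1 N n c s D B m t h ω bf S) (Z : HZ N c s D B m ω z) :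
    ∃ L, HL N c s D B m h ω bf z S L := by
  classical
  have := H.hN
  have := H.hc
  have := H.hcD
  have := H.hsD
  have := H.htD
  have := H.hB
  have := H.hm
  have := H.hn
  have key : ∀ p, p < N → ∃ R : Finset ℕ, R.card = (if p < s then p + 1 - c else bf p) ∧
      (∀ v ∈ R, (∃ j, s ≤ j ∧ j < m ∧ p = N - m + j ∧ Pre N c s D B m h ω S j v) ∨
        (∃ i < s, p = ω i ∧ PreX N c s h ω S i v) ∨ Pad N s D B m h z p v) ∧
      (∀ j, s ≤ j → j < m → p = N - m + j → ∀ v, Pre N c s D B m h ω S j v → v ∈ R) ∧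
      ∀ i < s, p = ω i → ∀ v, PreX N c s h ω S i v → v ∈ R := by
    intro p hp
    by_cases ew : ∃ i < s, p = ω i
    · obtain ⟨i, hi, rfl⟩ := ew
      have r := Z.wr i hi
      refine ⟨(range i).filter (fun k => ¬ h i k) ∪ (Ico s (s + c)).filter (fun k => ¬ h i k) ∪
        ((Ioo i s).filter (fun k => ¬ h i k ∧ ¬ h i (ω k))).image ω ∪
        (Ico (N - t) N).filter (fun v => i ∈ S v ∧ ¬ h i v), ?_, fun v hv => ?_,
        fun j _ _ e => by omega, fun k hk e v hv => ?_⟩
      · rw [card_union_of_disjoint, card_union_of_disjoint, card_union_of_disjoint,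
          card_image_of_injOn, if_neg (by omega), H.fw i hi]
        · rfl
        · exact fun a ha b hb e => Z.wi a (mem_Ioo.1 (mem_filter.1 ha).1).2 b
            (mem_Ioo.1 (mem_filter.1 hb).1).2 e
        · refine disjoint_left.2 fun a h1 h2 => ?_
          have a1 := mem_range.1 (mem_filter.1 h1).1
          have a2 := mem_Ico.1 (mem_filter.1 h2).1
          omega
        · refine disjoint_left.2 fun a h1 h2 => ?_
          obtain ⟨k, hk, rfl⟩ := mem_image.1 h2
          have a1 := Z.wr k (mem_Ioo.1 (mem_filter.1 hk).1).2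
          rcases mem_union.1 h1 with u | u
          · have a2 := mem_range.1 (mem_filter.1 u).1
            omega
          · have a2 := mem_Ico.1 (mem_filter.1 u).1
            omega
        · refine disjoint_left.2 fun a h1 h2 => ?_
          have a1 := mem_Ico.1 (mem_filter.1 h2).1
          rcases mem_union.1 h1 with u | u
          · rcases mem_union.1 u with u | u
            · have a2 := mem_range.1 (mem_filter.1 u).1
              omega
            · have a2 := mem_Ico.1 (mem_filter.1 u).1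
              omega
          · obtain ⟨k, hk, rfl⟩ := mem_image.1 u
            have a2 := Z.wr k (mem_Ioo.1 (mem_filter.1 hk).1).2
            omega
      · refine Or.inr (Or.inl ⟨i, hi, rfl, ?_⟩)
        simp only [mem_union, mem_filter, mem_range, mem_Ico, mem_image, mem_Ioo] at hv
        rcases hv with ((u | u) | ⟨k, u, rfl⟩) | u
        · exact Or.inl u
        · exact Or.inr (Or.inl ⟨u.1.1, u.1.2, u.2⟩)
        · exact Or.inr (Or.inr (Or.inl ⟨k, u.1.1, u.1.2, rfl, u.2⟩))
        · exact Or.inr (Or.inr (Or.inr ⟨u.1.2, u.2⟩))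
      · obtain rfl := Z.wi i hi k hk e
        simp only [mem_union, mem_filter, mem_range, mem_Ico, mem_image, mem_Ioo]
        rcases hv with u | u | ⟨k, t1, t2, rfl, t3⟩ | u
        · exact Or.inl (Or.inl (Or.inl u))
        · exact Or.inl (Or.inl (Or.inr ⟨⟨u.1, u.2.1⟩, u.2.2⟩))
        · exact Or.inl (Or.inr ⟨k, ⟨⟨t1, t2⟩, t3⟩, rfl⟩)
        · exact Or.inr ⟨⟨(H.sS v i u.2.1).2, u.1⟩, u.2⟩
    obtain ⟨b, hb⟩ : ∃ b, b = if p < s then p + 1 - c else bf p := ⟨_, rfl⟩
    rw [← hb]
    have f2 := H.f2 p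
    have f4 : N - m ≤ p → b = 2 * B + 2 * D := fun e => by
      rw [hb, if_neg (by omega), H.f4 p e]
    have f5 : b ≤ 2 * B + 2 * D := by
      rw [hb]
      split_ifs <;> omega
    by_cases e0 : b = 0
    · refine ⟨∅, e0.symm, by simp, fun j _ _ e => ?_, fun i hi e => absurd ⟨i, hi, e⟩ ew⟩
      have := f4 (by omega)
      omega
    have act : p < s ∨ N - m - (3 * B + 2 * D) ≤ p := by
      by_contra k
      rw [if_neg (by omega)] at hb
      omega
    have zr : s ≤ z p ∧ z p < N := by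
      rcases zcase Z act with u | ⟨i, hi, u, -⟩ | u | u
      · omega
      · exact absurd ⟨i, hi, u⟩ ew
      · omega
      · omega
    set C := (range N).filter
      (fun v => ∃ j, s ≤ j ∧ j < m ∧ p = N - m + j ∧ Pre N c s D B m h ω S j v) with hC
    set W := (range N).filter (fun v => Pad N s D B m h z p v) with hW
    have c1 : C.card ≤ b := by
      by_cases e : N - m ≤ p
      · have s1 : C ⊆ (Ico (p - (N - m) - B) (p - (N - m)) ∪ Ioc p (p + B)) ∪
            ((range N).filter (h p) ∪ (range s).image ω) := by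
          intro v hv
          obtain ⟨v1, j, -, hj, rfl, v2⟩ := mem_filter.1 hv
          simp only [mem_union, mem_Ico, mem_Ioc, mem_filter]
          rcases v2 with v2 | v2 | v2 | ⟨-, i, hi, rfl, -⟩
          · exact Or.inl (Or.inl (by omega))
          · exact Or.inl (Or.inr (by omega))
          · exact Or.inr (Or.inl ⟨v1, H.hs _ _ v2.2.2.2.1⟩)
          · exact Or.inr (Or.inr (mem_image_of_mem _ (mem_range.2 hi)))
        have a1 := (card_le_card s1).trans ((card_union_le _ _).trans (Nat.add_le_add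
          (card_union_le _ _) ((card_union_le _ _).trans
            (Nat.add_le_add (H.hD p (by omega) hp) card_image_le))))
        rw [Nat.card_Ico, Nat.card_Ioc, card_range] at a1
        rw [f4 e]
        omega
      · have s1 : C = ∅ := filter_eq_empty_iff.2 fun v _ ⟨j, _, _, e', _⟩ => by omega
        rw [s1]
        exact Nat.zero_le _
    have c2 : 2 * B + 2 * D ≤ W.card := by
      have s1 : Ico (m + 2 * s + (3 * B + 2 * D) + (p - (N - m - (3 * B + 2 * D))))
          (m + 2 * s + (3 * B + 2 * D) + (p - (N - m - (3 * B + 2 * D))) + (2 * B + 3 * D)) ⊆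
          W ∪ (range N).filter (h (z p)) := by
        intro v hv
        rw [mem_Ico] at hv
        have v1 : v ∈ range N := mem_range.2 (by omega)
        by_cases e : h v (z p)
        · exact mem_union_right _ (mem_filter.2 ⟨v1, H.hs _ _ e⟩)
        · exact mem_union_left _ (mem_filter.2 ⟨v1, hv.1, hv.2, e⟩)
      have a1 := (card_le_card s1).trans ((card_union_le _ _).trans
        (Nat.add_le_add_left (H.hD _ zr.1 zr.2) _))
      rw [Nat.card_Ico] at a1
      omega
    obtain ⟨R, s1, s2, s3⟩ := exists_subsuperset_card_eq (subset_union_left (s₁ := C) (s₂ := W))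
      c1 ((f5.trans c2).trans (card_le_card subset_union_right))
    refine ⟨R, s3, fun v hv => ?_, fun j h1 hj e v hv => s1 (mem_filter.2 ⟨?_, j, h1, hj, e, hv⟩),
      fun i hi e => absurd ⟨i, hi, e⟩ ew⟩
    · rcases mem_union.1 (s2 hv) with e | e
      · exact Or.inl (mem_filter.1 e).2
      · exact Or.inr (Or.inr (mem_filter.1 e).2)
    · rw [mem_range]
      rcases hv with hv | hv | hv | ⟨-, i, hi, rfl, -⟩
      · omega
      · omega
      · omega
      · have := Z.wr i hi
        omega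
  choose! L l1 l2 l3 l4 using key
  refine ⟨L, fun p hp => ?_, fun p h1 hp => ?_, l2,
    fun j h1 hj v hv => l3 _ (by omega) j h1 hj rfl v hv, fun i hi v hv => l4 _ ?_ i hi rfl v hv⟩
  · rw [l1 p (by omega), if_pos hp]
  · rw [l1 p hp, if_neg (by omega)]
  · have := Z.wr i hi
    omega

end Pool.Agent.MP_f65396_co.h15l
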