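import Pool.Agent.MP_f65396_co.h15l.Spec
import Pool.Agent.MP_f65396_co.h15o.Core0

/-! One star for every colour in the degenerate case. -/

set_option autoImplicit false

namespace Pool.Agent.MP_f65396_co.h15l

open Finset Pool.Agent.MP_f65396_co.h15
open Pool.Agent.MP_f65396_co.h15o.Core0 (alw0 lw mem_alw0 nat_lo nat_hi)

namespace Core0

variable {N n c D Z : ℕ} {h : ℕ → ℕ → Prop} [DecidableRel h]

lemma lw_le (H : H2 N n c D Z h) {p : ℕ} (hp : c - 1 ≤ p) (hN : p < N) :
    (lw h p).card ≤ p + 1 - c := by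
  have e1 := H.low p hp hN
  have e2 := card_filter_add_card_filter_not (s := Ico (c - 1) p) (h p)
  have hc := H.hc
  have s : lw h p ⊆ (range (c - 1)).filter (fun q => ¬ h p q) ∪
      (Ico (c - 1) p).filter (fun q => ¬ h p q) := by
    intro y hy
    simp only [lw, mem_filter, mem_range, mem_union, mem_Ico] at hy ⊢
    by_cases k : y < c - 1
    · exact Or.inl ⟨k, hy.2⟩
    · exact Or.inr ⟨⟨by omega, hy.1⟩, hy.2⟩
  have e3 := (card_le_card s).trans (card_union_le _ _)
  rw [Nat.card_Ico] at e2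
  omega

lemma lw_ge (H : H2 N n c D Z h) {p : ℕ} (hp : Z ≤ p) (hN : p < N) :
    p + 1 - c ≤ (lw h p).card := by
  have hc := H.hc
  have s : Ico (c - 1) p ⊆ lw h p := by
    intro y hy
    simp only [lw, mem_filter, mem_range, mem_Ico] at hy ⊢
    refine ⟨hy.2, fun t => ?_⟩
    have := (H.full p hp hN y (by omega)).1 t
    omega
  have e3 := card_le_card s
  rw [Nat.card_Ico] at e3
  omega

lemma lw_lo (H : H2 N n c D Z h) {p : ℕ} (hp : p < c - 1) : lw h p = ∅ := by
  refine eq_empty_of_forall_notMem fun y hy => ?_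
  simp only [lw, mem_filter, mem_range] at hy
  exact hy.2 (H.ind p hp y (by omega) (by omega))

lemma chkK (H : H2 N n c D Z h) {x : ℕ} (hx : c - 1 ≤ x) (hN : x < N) :
    ((range N).filter (fun y => ¬ (y ∈ alw0 N c h x ∧ x ∈ alw0 N c h y))).card ≤ D + c + 1 := by
  have s : (range N).filter (fun y => ¬ (y ∈ alw0 N c h x ∧ x ∈ alw0 N c h y)) ⊆
      (range N).filter (h x) ∪ (range (c - 1) ∪ {x}) := by
    intro y hy
    obtain ⟨y1, y2⟩ := mem_filter.1 hy
    by_contra k
    simp only [mem_union, mem_filter, mem_singleton, not_or, mem_range] at k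
    obtain ⟨k1, k2, k3⟩ := k
    rw [mem_range] at y1
    have b : ¬ h x y := fun t => k1 ⟨y1, t⟩
    exact y2 ⟨mem_alw0.2 ⟨y1, hx, k3, b⟩,
      mem_alw0.2 ⟨hN, by omega, fun t => k3 t.symm, fun t => b (H.hs _ _ t)⟩⟩
  have e1 := (card_le_card s).trans ((card_union_le _ _).trans
    (Nat.add_le_add_left (card_union_le _ _) _))
  have e2 := H.hD x hx hN
  rw [card_range, card_singleton] at e1
  omega

lemma tot_lw (H : H2 N n c D Z h) : n * (n + 1) ≤ 2 * ∑ p ∈ range N, (lw h p).card := by
  have t1 : ∀ x ∈ range N, N - 1 ≤ ((range N).filter (h x)).card +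
      ((lw h x).card + ((range N).filter (fun y => x ∈ lw h y)).card) := by
    intro x hx
    have s : (range N).erase x ⊆ (range N).filter (h x) ∪
        (lw h x ∪ (range N).filter (fun y => x ∈ lw h y)) := by
      intro y hy
      obtain ⟨y1, y2⟩ := mem_erase.1 hy
      simp only [lw, mem_union, mem_filter, mem_range] at y2 ⊢
      by_cases k : h x y
      · exact Or.inl ⟨y2, k⟩
      · rcases lt_or_gt_of_ne y1 with u | u
        · exact Or.inr (Or.inl ⟨u, k⟩)
        · exact Or.inr (Or.inr ⟨y2, u, fun t => k (H.hs _ _ t)⟩)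
    have a1 := (card_le_card s).trans ((card_union_le _ _).trans
      (Nat.add_le_add_left (card_union_le _ _) _))
    rwa [card_erase_of_mem hx, card_range] at a1
  have t2 := sum_le_sum t1
  simp only [sum_add_distrib, sum_const, card_range, smul_eq_mul] at t2
  have t3 := sum_flip_le N (lw h)
  have t8 := H.hsum
  omega

lemma tot_nat (H : H2 N n c D Z h) : ∑ p ∈ range N, (lw h p).card ≤
    ∑ p ∈ range N, (nat (alw0 N c h) p).card := by
  refine sum_le_sum fun p hp => ?_
  by_cases k : p < c - 1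
  · rw [lw_lo H k, card_empty]
    exact Nat.zero_le _
  · rw [nat_hi H.hs (by omega) (mem_range.1 hp)]

end Core0

open Core0 in
theorem core0 (ho : h15o.Ori2S) : Core0S := by
  intro N n c D Z h _ H
  have hN := H.hN
  have hc := H.hc
  have hZ := H.hZ
  have num := H.num
  have t1 := tot_lw H
  have t2 := tot_nat H
  have t4 := gauss c hc n
  rw [← hN] at t4
  obtain ⟨A, a1, a2⟩ := ho N (c - 1) N (N - Z) N 0 (D + c + 1) 1 0 (alw0 N c h)
    (fun x => x + 1 - c) (fun _ => 1)
    (fun x _ y hy => ⟨(mem_alw0.1 hy).1, (mem_alw0.1 hy).2.2.1⟩) (fun x h1 h2 => chkK H h1 h2)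
    (fun x hx => by omega) (by omega)
    (fun x hx => by
      by_cases k : x < c - 1
      · rw [nat_lo k, card_empty]
        omega
      · rw [nat_hi H.hs (by omega) (by omega)]
        exact lw_le H (by omega) (by omega))
    (fun x h1 h2 => by omega)
    (fun x h1 h2 => by
      rw [nat_hi H.hs (by omega) h2]
      exact lw_ge H (p := x) (by omega) h2)
    (fun x h1 h2 => by omega)
    (by rw [Ico_eq_empty (by omega), sum_empty]) (fun x _ => by omega) (by omega) (by omega)
    (by omega) (Or.inr (by omega))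
  have am : ∀ p < N, ∀ y ∈ A p, _ := fun p hp y hy => mem_alw0.1 ((a1 p hp).1 hy)
  refine ⟨fun p => p, fun _ => 0, A, fun _ => ∅, fun p _ hp => ⟨hp, Nat.zero_lt_of_lt hp⟩,
    fun p _ hp y hy => ⟨(am p hp y hy).1, (am p hp y hy).2.2⟩,
    fun p _ _ y hy => absurd hy (notMem_empty _), fun p h1 hp => ?_, fun p h1 hp => ?_,
    fun p _ hp q _ hq y hy w hw t => ?_, fun p _ _ q _ _ y _ w hw => absurd hw (notMem_empty _),
    fun p _ _ q _ _ y hy => absurd hy (notMem_empty _)⟩
  · rw [(a1 p hp).2, card_empty]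
    omega
  · rw [(a1 p (by omega)).2, (a1 (p + 1) hp).2]
    exact ⟨by omega, le_rfl⟩
  · rcases Sym2.eq_iff.1 t with u | u
    · exact u.1
    · have u1 : p = w := u.1
      have u2 : y = q := u.2
      exact absurd (u1 ▸ hw) (a2 p hp q hq (u2 ▸ hy))

end Pool.Agent.MP_f65396_co.h15l
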