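import Mathlib.Tactic.Zify
import Mathlib.Tactic.Positivity
import Pool.Agent.MP_f65396_co.h15o.IdGap
import Pool.Agent.MP_f65396_co.h15l.Spec

/-! The second moment bound. -/

set_option autoImplicit false

namespace Pool.Agent.MP_f65396_co.h15l

open Finset
open Pool.Agent.MP_f65396_co.h15o.IdGap

namespace Gap

lemma size {n c s s0 D N T S : ℕ} (hc : 1 ≤ c) (hn : 10 ^ 10 * c ≤ n) (hD : n < 10000 * (D + 1))
    (hS : S + n * (n + 1) = (n + c) * (n + c - 1)) (h1 : s * (D + 1) ≤ S) (hN : N + s = n + c)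
    (h2 : 9 * N * s0 ≤ 10 * T) (h3 : 2 * T ≤ S) : s ≤ 30000 * c ∧ s0 ≤ 2 * c := by
  obtain ⟨a, rfl⟩ : ∃ a, c = a + 1 := ⟨c - 1, by omega⟩
  rw [← add_assoc, Nat.add_sub_cancel] at hS
  have e : S = a * (2 * n + a + 1) := by nlinarith
  have p : s ≤ 30000 * (a + 1) := by
    refine Nat.le_of_mul_le_mul_right ?_ (Nat.succ_pos D)
    have : a * (2 * n + a + 1) ≤ (a + 1) * (3 * (10000 * (D + 1))) :=
      Nat.mul_le_mul (by omega) (by omega)
    nlinarith
  refine ⟨p, ?_⟩
  refine Nat.le_of_mul_le_mul_left (c := 9 * N) ?_ (by omega)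
  have : a * (5 * (2 * n + a + 1)) ≤ (a + 1) * (18 * N) := Nat.mul_le_mul (by omega) (by omega)
  nlinarith

/-- the final inequality, `l` is the truncated difference `c - 1 - s` -/
lemma fin {N a c s s1 D e g f K K0 K1 E E0 l w T Q P : ℕ} (hD : 400000 * c ≤ D) (hN : 1000 * D ≤ N)
    (hs : s ≤ 30000 * c) (i : 2 * T + f ≤ 2 * (a * N) + g)
    (hQ : Q ≤ D * f) (hP : P + K = N * T) (hK : K = K0 + K1) (hg : g ≤ e + 2 * (s1 * s))
    (h1 : s1 * (D * N) ≤ 10 * K1 + s1 * (s * N)) (h0 : 9 * (N * E0) ≤ 10 * K0)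
    (hE : s1 = 0 → E = E0) (hl : l * N ≤ f) (hw : w ≤ 211 * c)
    (hz : w ≠ 0 → l = 0 → s1 = 0 → 1000 * c ≤ E) :
    Q + P + N * (168 * (c * l) + w) ≤ a * N ^ 2 + e * N := by
  have i2 := Nat.mul_le_mul_left N i
  have g2 := Nat.mul_le_mul_left N hg
  have a1 : (2 * D + 758 * c) * f ≤ N * f := Nat.mul_le_mul_right f (by omega)
  have a2 := Nat.mul_le_mul_left (758 * c) hl
  have a3 : s1 * ((11 * s + 2110 * c) * N) ≤ s1 * (D * N) :=
    Nat.mul_le_mul_left s1 (Nat.mul_le_mul_right N (by omega))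
  have a4 := Nat.mul_le_mul_left N hw
  have b1 := Nat.zero_le (c * l * N)
  have b2 := Nat.zero_le (s1 * (c * N))
  have b3 := Nat.zero_le (N * E0)
  have b4 := Nat.zero_le (N * c)
  have b5 := Nat.zero_le (e * N)
  have z : 10 * (N * w) ≤ 2110 * (c * l * N) + 2110 * (s1 * (c * N)) + 9 * (N * E0) := by
    by_cases w0 : w = 0
    · simp [w0]
    by_cases l0 : l = 0
    · by_cases s0 : s1 = 0
      · have := Nat.mul_le_mul_left N (hE s0 ▸ hz w0 l0 s0)
        linarith
      · have := Nat.mul_le_mul_right (c * N) (Nat.one_le_iff_ne_zero.2 s0)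
        linarith
    · have := Nat.mul_le_mul_left (c * N) (Nat.one_le_iff_ne_zero.2 l0)
      linarith
  linarith

end Gap

theorem gap : GapS := by
  intro V _ U h _ n c e X X0 G hT hX hX0 he
  have XU : X ⊆ U := fun v hv => ((hX v).1 hv).1
  have X0X : X0 ⊆ X := fun v hv => ((hX0 v).1 hv).1
  have h1 := card_sdiff_add_card_eq_card XU
  have h2 := G.hsum
  have h3 := total XU G.hs
  have h4 := sum_congr rfl fun x (hx : x ∈ X) => own G.hi hx
  have h5 : X.card * (n / 10000 + 1) ≤ ∑ u ∈ U, (U.filter (h u)).card :=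
    le_trans (card_nsmul_le_sum X (fun u => (U.filter (h u)).card) (n / 10000 + 1)
      fun x hx => ((hX x).1 hx).2) (sum_le_sum_of_subset XU)
  have dW : ∀ v ∈ U \ X, ((U \ X).filter (h v)).card ≤ n / 10000 := fun v hv =>
    (card_le_card (filter_subset_filter _ sdiff_subset)).trans (not_lt.1 fun hh =>
      (mem_sdiff.1 hv).2 ((hX v).2 ⟨(mem_sdiff.1 hv).1, hh⟩))
  have dX : ∀ x ∈ X, n / 10000 ≤ ((U \ X).filter (h x)).card + X.card := fun x hx => by
    have p := ((hX x).1 hx).2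
    have q := card_filter_le X (h x)
    rw [split XU] at p
    omega
  rw [G.hU] at h1
  rw [← sum_sdiff XU (f := fun x => ((U \ X).filter (h x)).card ^ 2)]
  obtain ⟨k, hk⟩ : ∃ k : V → ℕ, ∀ x, ((U \ X).filter (h x)).card = k x := ⟨_, fun _ => rfl⟩
  obtain ⟨d, hd⟩ : ∃ d : V → ℕ, ∀ x, ((U \ X).filter fun v => ¬ h x v).card = d x :=
    ⟨_, fun _ => rfl⟩
  have kd : ∀ x, k x + d x = (U \ X).card := fun x =>
    hk x ▸ hd x ▸ card_filter_add_card_filter_not _
  have nt : X.card + 1 = c → ∑ x ∈ X, (X.filter fun v => v ≠ x ∧ ¬ h x v).card = 0 →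
      n < 20000 * ∑ x ∈ X, d x := fun a b => by
    have b' := sum_eq_zero_iff.1 b
    refine not_le.1 fun hh => hT X ⟨XU, a, fun x hx v hv hne => ?_, le_trans ?_ hh⟩
    · by_contra hc
      exact filter_eq_empty_iff.1 (card_eq_zero.1 (b' x hx)) hv ⟨hne, hc⟩
    · refine Nat.mul_le_mul_left _ (sum_le_sum fun x hx => ?_)
      rw [split XU, b' x hx, ← hd]
      exact card_le_card fun v hv => mem_filter.2 ⟨(mem_filter.1 hv).1, (mem_filter.1 hv).2.2⟩
  have gx : ∑ x ∈ X, (X.filter fun v => v ≠ x ∧ ¬ h x v).card ≤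
      e + 2 * ((X \ X0).card * X.card) := by
    have p := sum_le_card_nsmul (X \ X0) (fun x => (X.filter fun v => v ≠ x ∧ ¬ h x v).card) _
      fun x _ => card_filter_le X _
    have q := sum_le_sum fun x (_ : x ∈ X0) =>
      show (X.filter fun v => v ≠ x ∧ ¬ h x v).card ≤
          (X \ X0).card + (X0.filter fun v => v ≠ x ∧ ¬ h x v).card by
        rw [split X0X]
        exact Nat.add_le_add_right (card_filter_le _ _) _
    have r := Nat.mul_le_mul_right (X \ X0).card (card_le_card X0X)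
    rw [sum_add_distrib, sum_const, ← he] at q
    rw [← sum_sdiff X0X]
    simp only [smul_eq_mul] at p q
    rw [mul_comm X.card] at r
    omega
  simp only [hk] at h3 hX0 dW dX ⊢
  set N := (U \ X).card with hN
  have t1 := sum_le_sum fun v (hv : v ∈ U \ X) => show k v ^ 2 ≤ n / 10000 * k v by
    rw [sq]; exact Nat.mul_le_mul_right _ (dW v hv)
  have t2 := sum_congr rfl fun x (_ : x ∈ X) => show k x ^ 2 + k x * d x = N * k x by
    rw [← kd x]; ring
  have t3 := sum_congr rfl fun x (_ : x ∈ X) => kd x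
  have t4 := (card_nsmul_le_sum X0 (fun x => 10 * k x) _ fun x hx => ((hX0 x).1 hx).2).trans
    (sum_le_sum_of_subset X0X)
  have t5 := sum_le_sum fun x (hx : x ∈ X0) => show 9 * (N * d x) ≤ 10 * (k x * d x) by
    have := Nat.mul_le_mul_right (d x) ((hX0 x).1 hx).2
    nlinarith
  have t6 := sum_le_sum fun x (hx : x ∈ X \ X0) =>
    show n / 10000 * N ≤ 10 * (k x * d x) + X.card * N by
      have p : 10 * k x < 9 * N := not_le.1 fun hh =>
        (mem_sdiff.1 hx).2 ((hX0 x).2 ⟨(mem_sdiff.1 hx).1, hh⟩)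
      have q : N ≤ 10 * d x := by have := kd x; omega
      have r := Nat.mul_le_mul_right N (dX x (mem_sdiff.1 hx).1)
      have := Nat.mul_le_mul_left (k x) q
      nlinarith
  have t7 := (sum_sdiff X0X (f := fun x => k x * d x)).symm
  have t8 : (X \ X0).card = 0 → ∑ x ∈ X, d x = ∑ x ∈ X0, d x := fun a => by
    rw [← sum_sdiff X0X, card_eq_zero.1 a, sum_empty, zero_add]
  simp only [sum_add_distrib, ← mul_sum, sum_const, smul_eq_mul, mul_one] at t1 t2 t3 t4 t5 t6 h4
  have hc := G.hc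
  have hn := G.hn
  have d1 := Nat.div_mul_le_self n 10000
  have d2 : n < 10000 * (n / 10000 + 1) := by omega
  clear hT G hX hX0 dW dX kd hk hd he XU X0X
  generalize ∑ x ∈ X, k x = T, ∑ x ∈ U \ X, k x = f, ∑ x ∈ X, k x ^ 2 = P,
    ∑ x ∈ U \ X, k x ^ 2 = Q, ∑ x ∈ X, d x = E, ∑ x ∈ X0, d x = E0, ∑ x ∈ X, k x * d x = K,
    ∑ x ∈ X0, k x * d x = K0, ∑ x ∈ X \ X0, k x * d x = K1, (X \ X0).card = s1, X0.card = s0,
    X.card = s, n / 10000 = D, ∑ x ∈ X, (X.filter (h x)).card = B,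
    ∑ x ∈ X, (X.filter fun v => v ≠ x ∧ ¬ h x v).card = g,
    ∑ u ∈ U, (U.filter (h u)).card = S at *
  clear_value N
  obtain ⟨p1, p2⟩ := Gap.size hc hn d2 h2 h5 h1 (mul_comm s0 _ ▸ t4)
    (show 2 * T ≤ S by omega)
  have hD : 400000 * c ≤ D := by omega
  have hN' : 1000 * D ≤ N := by omega
  have n1 : 100000000 * c ≤ n := by omega
  have n2 : 2 * c + 10 * D + 2 ≤ N := by omega
  have n3 : 1000 * c ≤ N := by omega
  have fin := fun (l : ℕ) (hI : 2 * T + f ≤ 2 * ((c - 1) * N) + g) (hl : l * N ≤ f)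
      (hz : g = 0 → l = 0 → 1000 * c ≤ E) =>
    Gap.fin (w := if e = 0 then 211 * c else 0) hD hN' p1 hI t1
      t2 (t7.trans (add_comm _ _)) gx (by linarith) t5 t8 hl (by split <;> omega)
      fun w0 l0 s0 => hz (by
        have : e = 0 := by
          by_contra hh
          exact w0 (if_neg hh)
        rw [this, s0] at gx
        omega) l0
  replace nt : s + 1 = c → g = 0 → 1000 * c ≤ E := fun a b => by
    have := nt a b
    omega
  refine ⟨p1, p2, ?_⟩
  obtain ⟨m, hm⟩ : ∃ m, 1000 * c = m := ⟨_, rfl⟩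
  have m0 : 0 < m := by omega
  rw [hm] at fin nt n3
  clear hD hN' n1 hn p1 p2 hm d1 d2 h5 t1 t2 t4 t5 t6 t7 t8 gx
  obtain ⟨a, rfl⟩ : ∃ a, c = a + 1 := ⟨c - 1, by omega⟩
  rw [← add_assoc, Nat.add_sub_cancel] at h2
  have e1 : S = a * (2 * n + a + 1) := by linarith
  rw [Nat.add_sub_cancel] at fin ⊢
  rcases le_or_gt s a with q | q
  · obtain ⟨l, rfl⟩ := Nat.exists_eq_add_of_le q
    rw [Nat.add_sub_cancel_left]
    have e2 : N = n + l + 1 := by omega
    have e3 : f + l * (l + 1) = 2 * (l * N) + 2 * E + g := by subst e2; linarith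
    have e4 : l * (l + 1) ≤ l * N := Nat.mul_le_mul_left l (by omega)
    have e5 : l * (l + 1 + 4 * D + 1) ≤ l * N := Nat.mul_le_mul_left l (by omega)
    refine ⟨fun _ => ?_, fin l (by linarith [Nat.zero_le (l * (l + 1))]) (by omega) fun g0 l0 => ?_⟩
    · rcases Nat.eq_zero_or_pos l with rfl | l0
      · have := nt rfl
        omega
      · linarith [Nat.zero_le E, Nat.zero_le g, Nat.zero_le (l * N)]
    · subst l0
      exact nt rfl g0
  · obtain ⟨t, rfl⟩ := Nat.exists_eq_add_of_lt q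
    rw [Nat.sub_eq_zero_of_le (by omega)]
    have e2 : n = N + t := by omega
    have e3 : f + 2 * ((t + 1) * N) + t * (t + 1) = 2 * E + g := by subst e2; linarith
    refine ⟨fun hh => by omega, fin 0 (by linarith [Nat.zero_le t, Nat.zero_le (t * t)]) (by omega) fun g0 _ => ?_⟩
    have : N ≤ (t + 1) * N := Nat.le_mul_of_pos_left _ (by omega)
    omega

end Pool.Agent.MP_f65396_co.h15l
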