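import Pool.Agent.MP_f65396_co.h15o.IdGap
import Pool.Agent.MP_f65396_co.h15l.Spec

/-! The count of non-edges outside `c - 1` vertices. -/

set_option autoImplicit false

namespace Pool.Agent.MP_f65396_co.h15l

open Finset Pool.Agent.MP_f65396_co.h15o.IdGap

theorem idS : IdS := by
  intro V _ U h _ n c X G hX hc
  subst hc
  have h1 := card_sdiff_add_card_eq_card hX
  have h2 := G.hsum
  have h3 := sum_congr rfl fun v (_ : v ∈ U \ X) => card_filter_add_card_filter_not (s := X) (h v)
  have h4 := sum_congr rfl fun x (hx : x ∈ X) => own G.hi hx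
  rw [total hX G.hs, ← add_assoc, Nat.add_sub_cancel] at h2
  rw [G.hU] at h1
  simp only [sum_add_distrib, sum_const, smul_eq_mul, swap G.hs (U \ X) X] at h3 h4
  rw [show (U \ X).card = n + 1 by omega] at h3
  nlinarith

end Pool.Agent.MP_f65396_co.h15l
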