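import Pool.Agent.MP_f65396_co.h15l.Spec
import Mathlib.Algebra.Order.BigOperators.Group.Finset
import Mathlib.Tactic.Ring

/-! Removing the edges of the third stars. -/

set_option autoImplicit false

namespace Pool.Agent.MP_f65396_co.h15l

open Finset

namespace Plus

theorem tri (t : ℕ) : ∑ i ∈ range t, (t - i + (t - i)) = t * (t + 1) := by
  induction t with
  | zero => simp
  | succ t ih =>
    rw [sum_range_succ']
    simp only [Nat.add_sub_add_right, ih, Nat.sub_zero]
    ring

end Plus

theorem plus : PlusS := by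
  intro V _ U h k _ _ n c s D t g tc tl hG hD hS hk
  have ks : ∀ u v, k u v → k v u := fun u v e => by
    rw [hk] at e ⊢
    exact e.imp (hG.hs u v) fun ⟨i, a, b⟩ => ⟨i, a, b.symm⟩
  have key : ∀ v, (∀ i < s, g i ≠ v) → ∀ w, k v w ↔ h v w := fun v hv w => by
    rw [hk]
    refine or_iff_left fun ⟨i, a, b⟩ => ?_
    obtain ⟨-, q, q1, q2⟩ := hD.sub i v (by
      rw [sv, if_pos a, mem_insert]
      exact b.imp And.left And.right)
    exact hv q q1 q2
  have far : ∀ j, s ≤ j → j < 2 * s + 2 * c + 6 * D → ∀ w, k (g j) w ↔ h (g j) w :=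
    fun j a b => key _ fun i p e => by
      have := hD.inj i (by omega) j b e
      omega
  refine ⟨ks, fun u e => ?_, ⟨hD.mem, hD.inj, fun v a b => ?_,
    fun i a => (hk _ _).2 (Or.inl (hD.par i a)), fun j a => (hk _ _).2 (Or.inl (hD.bot j a)),
    hD.sub, fun i a => ?_⟩, ?_⟩
  · rcases (hk u u).1 e with e | ⟨i, a, ⟨b, b'⟩ | ⟨b, b'⟩⟩
    · exact hG.hi u e
    · exact (hS.ml i a u b').2.1 b
    · exact (hS.ml i a u b').2.1 b
  · rw [filter_congr fun w _ => key v b w]
    exact hD.deg v a b
  · have e1 := far (2 * s + 2 * c + i) (by omega) (by omega)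
    have e2 := far (2 * s + 2 * c + 3 * D + i) (by omega) (by omega)
    have := hD.top i a
    simp only [tcost, e1, e2] at this ⊢
    exact this
  · have h1 : ∀ u ∈ U, (U.filter (k u)).card ≤ (U.filter (h u)).card +
        ∑ i ∈ range t, ((if u = tc i then t - i else 0) + if u ∈ tl i then 1 else 0) := by
      intro u _
      refine (card_le_card (t := U.filter (h u) ∪ (range t).biUnion fun i =>
        (if u = tc i then tl i else ∅) ∪ if u ∈ tl i then {tc i} else ∅) fun v hv => ?_).trans
        ((card_union_le _ _).trans (Nat.add_le_add_left (card_biUnion_le.trans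
          (sum_le_sum fun i hi => (card_union_le _ _).trans (Nat.add_le_add ?_ ?_))) _))
      · obtain ⟨v1, v2⟩ := mem_filter.1 hv
        rcases (hk u v).1 v2 with e | ⟨i, a, b⟩
        · exact mem_union_left _ (mem_filter.2 ⟨v1, e⟩)
        · refine mem_union_right _ (mem_biUnion.2 ⟨i, mem_range.2 a, ?_⟩)
          rcases b with ⟨b, b'⟩ | ⟨b, b'⟩
          · exact mem_union_left _ (by rwa [if_pos b])
          · exact mem_union_right _ (by rw [if_pos b', b]; exact mem_singleton_self _)
      · split_ifs
        · exact (hS.cd i (mem_range.1 hi)).le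
        · exact le_rfl
      · split_ifs <;> exact le_rfl
    have h2 := sum_le_sum h1
    rw [sum_add_distrib, sum_comm] at h2
    have h3 : ∑ i ∈ range t, ∑ u ∈ U, ((if u = tc i then t - i else 0) +
        if u ∈ tl i then 1 else 0) ≤ ∑ i ∈ range t, (t - i + (t - i)) := by
      refine sum_le_sum fun i hi => ?_
      rw [sum_add_distrib, sum_ite_eq', ← card_filter]
      refine Nat.add_le_add (by split_ifs <;> omega) ?_
      rw [← hS.cd i (mem_range.1 hi)]
      exact card_le_card fun v hv => (mem_filter.1 hv).2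
    rw [Plus.tri] at h3
    have := hG.hsum
    omega

end Pool.Agent.MP_f65396_co.h15l
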