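import Pool.Agent.MP_f65396_co.h15l.Spec
import Pool.Agent.MP_f65396_co.h15o.SelA

/-! The special vertices in the spread case. -/

set_option autoImplicit false

namespace Pool.Agent.MP_f65396_co.h15l

open Finset Pool.Agent.MP_f65396_co.h15
open Pool.Agent.MP_f65396_co.h15o.SelA (Sq app ext)

namespace SelA

variable {V : Type} [DecidableEq V] {U : Finset V} {h : V → V → Prop} [DecidableRel h]

lemma cg (S : ℕ → Finset V) {y u y' u' : ℕ → V} {i : ℕ} (e : ∀ k ≤ i, y' k = y k ∧ u' k = u k) :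
    tcost U h S y' u' i = tcost U h S y u i := by
  have a : ∀ v, (range i).filter (fun k => h v (y' k)) = (range i).filter fun k => h v (y k) :=
    fun v => filter_congr fun k hk => by rw [(e k (mem_range.1 hk).le).1]
  have b : ∀ v, (range i).filter (fun k => h v (u' k)) = (range i).filter fun k => h v (u k) :=
    fun v => filter_congr fun k hk => by rw [(e k (mem_range.1 hk).le).2]
  simp only [tcost, a, b, (e i le_rfl).1, (e i le_rfl).2]

omit [DecidableEq V] in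
lemma ct {f : ℕ → V} {i : ℕ} (hf : Sq U f i) (v : V) :
    ((range i).filter fun k => h v (f k)).card ≤ (U.filter (h v)).card :=
  card_le_card_of_injOn f (fun k hk => mem_coe.2 (mem_filter.2
    ⟨hf.1 k (mem_range.1 (mem_filter.1 hk).1), (mem_filter.1 hk).2⟩)) fun k hk j hj =>
      hf.2 k (mem_range.1 (mem_filter.1 hk).1) j (mem_range.1 (mem_filter.1 hj).1)

lemma low {S : ℕ → Finset V} {y u : ℕ → V} {i d : ℕ} (hy : Sq U y i) (hu : Sq U u i) (e : S i = ∅)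
    (h1 : (U.filter (h (y i))).card ≤ d) (h2 : (U.filter (h (u i))).card ≤ d) :
    tcost U h S y u i ≤ 5 * d := by
  have a : (U.filter fun x => h (u i) x ∧ h (y i) x).card ≤ (U.filter (h (u i))).card :=
    card_le_card (monotone_filter_right _ fun _ _ k => k.1)
  have b1 := ct (h := h) hy (u i)
  have b2 := ct (h := h) hu (u i)
  have b3 := ct (h := h) hy (y i)
  have b4 := ct (h := h) hu (y i)
  rw [tcost, e, union_empty]
  omega

/-- from the final order to the order of the choices -/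
def pm (s c k R D i : ℕ) : ℕ :=
  if i < s + k then i else if i < s + c then i + (s + k + 2 * R) else
  if i < s + c + k then i - (c - k) else if i < s + 2 * c then i + (s + 2 * R) else
  if i < 2 * s + 2 * c then i - 2 * c + (2 * k + 2 * R) else
  if i < 2 * s + 2 * c + R then i - (s + 2 * c) + 2 * k else
  if i < 2 * s + 2 * c + 3 * D then i + R else
  if i < 2 * s + 2 * c + 3 * D + R then i - (s + 2 * c + 3 * D) + (2 * k + R) else i

lemma pm_c (s c k R D i : ℕ) : ∃ p, pm s c k R D i = p ∧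
    ((i < s + k ∧ p = i) ∨ (s + k ≤ i ∧ i < s + c ∧ p = i + (s + k + 2 * R)) ∨
    (s + c ≤ i ∧ i < s + c + k ∧ p = i - (c - k)) ∨
    (s + c + k ≤ i ∧ i < s + 2 * c ∧ p = i + (s + 2 * R)) ∨
    (s + 2 * c ≤ i ∧ i < 2 * s + 2 * c ∧ p = i - 2 * c + (2 * k + 2 * R)) ∨
    (2 * s + 2 * c ≤ i ∧ i < 2 * s + 2 * c + R ∧ p = i - (s + 2 * c) + 2 * k) ∨
    (2 * s + 2 * c + R ≤ i ∧ i < 2 * s + 2 * c + 3 * D ∧ p = i + R) ∨
    (2 * s + 2 * c + 3 * D ≤ i ∧ i < 2 * s + 2 * c + 3 * D + R ∧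
      p = i - (s + 2 * c + 3 * D) + (2 * k + R)) ∨
    (2 * s + 2 * c + 3 * D + R ≤ i ∧ p = i)) := by
  refine ⟨_, rfl, ?_⟩
  unfold pm
  by_cases a1 : i < s + k
  · exact Or.inl ⟨a1, if_pos a1⟩
  rw [if_neg a1]
  refine Or.inr ?_
  by_cases a2 : i < s + c
  · exact Or.inl ⟨not_lt.1 a1, a2, if_pos a2⟩
  rw [if_neg a2]
  refine Or.inr ?_
  by_cases a3 : i < s + c + k
  · exact Or.inl ⟨not_lt.1 a2, a3, if_pos a3⟩
  rw [if_neg a3]
  refine Or.inr ?_
  by_cases a4 : i < s + 2 * c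
  · exact Or.inl ⟨not_lt.1 a3, a4, if_pos a4⟩
  rw [if_neg a4]
  refine Or.inr ?_
  by_cases a5 : i < 2 * s + 2 * c
  · exact Or.inl ⟨not_lt.1 a4, a5, if_pos a5⟩
  rw [if_neg a5]
  refine Or.inr ?_
  by_cases a6 : i < 2 * s + 2 * c + R
  · exact Or.inl ⟨not_lt.1 a5, a6, if_pos a6⟩
  rw [if_neg a6]
  refine Or.inr ?_
  by_cases a7 : i < 2 * s + 2 * c + 3 * D
  · exact Or.inl ⟨not_lt.1 a6, a7, if_pos a7⟩
  rw [if_neg a7]
  refine Or.inr ?_
  by_cases a8 : i < 2 * s + 2 * c + 3 * D + R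
  · exact Or.inl ⟨not_lt.1 a7, a8, if_pos a8⟩
  exact Or.inr ⟨not_lt.1 a8, if_neg a8⟩

lemma pm_ok {s c k R D : ℕ} (h1 : k ≤ c) (h2 : R ≤ 3 * D) :
    (∀ i < 2 * s + 2 * c + 6 * D, pm s c k R D i < 2 * s + 2 * c + 6 * D) ∧
    ∀ i j, pm s c k R D i = pm s c k R D j → i = j := by
  refine ⟨fun i hi => ?_, fun i j e => ?_⟩
  · obtain ⟨p, e, a⟩ := pm_c s c k R D i
    rw [e]
    clear e
    omega
  · obtain ⟨p, e1, a⟩ := pm_c s c k R D i
    obtain ⟨q, e2, b⟩ := pm_c s c k R D j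
    rw [e1, e2] at e
    clear e1 e2
    rcases a with a | a | a | a | a | a | a | a | a <;> omega

lemma pm_v {s c k R D : ℕ} (h1 : k ≤ c) (h2 : R ≤ 3 * D) :
    (∀ i < s, pm s c k R D (s + 2 * c + i) = s + (k + k + (R + R)) + i) ∧
    (∀ j < k, pm s c k R D (s + j) = s + j ∧ pm s c k R D (s + c + j) = s + (k + j)) ∧
    (∀ j < R, pm s c k R D (2 * s + 2 * c + j) = s + (k + k + j) ∧
      pm s c k R D (2 * s + 2 * c + 3 * D + j) = s + (k + k + (R + j))) ∧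
    ∀ i < 3 * D, R ≤ i → s + (k + k + (R + R)) + s ≤ pm s c k R D (2 * s + 2 * c + i) ∧
      s + (k + k + (R + R)) + s ≤ pm s c k R D (2 * s + 2 * c + 3 * D + i) := by
  refine ⟨fun i hi => ?_, fun i hi => ⟨?_, ?_⟩, fun i hi => ⟨?_, ?_⟩, fun i hi e => ⟨?_, ?_⟩⟩
  · obtain ⟨p, e, a⟩ := pm_c s c k R D (s + 2 * c + i)
    rw [e]; clear e; omega
  · obtain ⟨p, e, a⟩ := pm_c s c k R D (s + i)
    rw [e]; clear e; omega
  · obtain ⟨p, e, a⟩ := pm_c s c k R D (s + c + i)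
    rw [e]; clear e; omega
  · obtain ⟨p, e, a⟩ := pm_c s c k R D (2 * s + 2 * c + i)
    rw [e]; clear e; omega
  · obtain ⟨p, e, a⟩ := pm_c s c k R D (2 * s + 2 * c + 3 * D + i)
    rw [e]; clear e; omega
  · obtain ⟨p, e', a⟩ := pm_c s c k R D (2 * s + 2 * c + i)
    rw [e']; clear e'; omega
  · obtain ⟨p, e', a⟩ := pm_c s c k R D (2 * s + 2 * c + 3 * D + i)
    rw [e']; clear e'; omega

end SelA

open SelA

theorem selA (h1 : SelA1S) : SelAS := by
  intro V _ U h _ n c G hT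
  have hS : ∑ u ∈ U, (U.filter (h u)).card ≤ c * (3 * n) := by
    have a1 := G.hsum
    have a2 := G.hn
    obtain ⟨e, rfl⟩ : ∃ e, c = e + 1 := ⟨c - 1, by have := G.hc; omega⟩
    rw [show n + (e + 1) - 1 = n + e from rfl] at a1
    have a3 := Nat.mul_le_mul_left e (show e + 1 ≤ n by omega)
    nlinarith
  obtain ⟨D, hD⟩ : ∃ D, D = n / 10000 := ⟨_, rfl⟩
  obtain ⟨X, hX⟩ : ∃ X : Finset V, ∀ v, v ∈ X ↔ v ∈ U ∧ n / 10000 < (U.filter (h v)).card :=
    ⟨U.filter fun v => n / 10000 < (U.filter (h v)).card, fun v => mem_filter⟩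
  obtain ⟨hc, n1, t, tc, tl, a, b, y, u, st, ht, ab, ab', yu, yu', tp⟩ := h1 V U h n c X G hT hX
  rw [← hD] at hX ⊢
  have XU : X ⊆ U := fun v hv => ((hX v).1 hv).1
  obtain ⟨s, hs⟩ : ∃ s, s = X.card := ⟨_, rfl⟩
  rw [← hs] at n1 ab ab' yu
  obtain ⟨k, hk⟩ : ∃ k, k = c - s := ⟨_, rfl⟩
  rw [← hk] at ab ab' yu
  obtain ⟨R, hR⟩ : ∃ R, R = 40 * c := ⟨_, rfl⟩
  rw [← hR] at yu yu' tp
  have hU := G.hU
  have hn := G.hn
  obtain ⟨Lo, hLo⟩ : ∃ Lo, Lo = U.filter fun v => ¬ 8 * c + 1 ≤ (U.filter (h v)).card := ⟨_, rfl⟩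
  have nL : 2 * s + 2 * c + 6 * D ≤ Lo.card := by
    have a1 := (Sel.markov U (fun v => (U.filter (h v)).card) (8 * c + 1)).trans hS
    have a2 := card_filter_add_card_filter_not (s := U)
      fun v => 8 * c + 1 ≤ (U.filter (h v)).card
    rw [← hLo] at a2
    generalize (U.filter fun v => 8 * c + 1 ≤ (U.filter (h v)).card).card = m at a1 a2
    have a3 : 8 * m ≤ 3 * n := Nat.le_of_mul_le_mul_left
      (show c * (8 * m) ≤ c * (3 * n) by nlinarith) (by have := G.hc; omega)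
    omega
  obtain ⟨x, x1, -, x2⟩ := ext (U := U) (g := a) (a := 0) ⟨by simp, by simp⟩
    (fun _ => X) s fun i hi => ⟨XU, by omega⟩
  simp only [zero_add] at x1 x2
  have x3 : (range s).image x = X := eq_of_subset_of_card_le
    (image_subset_iff.2 fun i hi => x2 i (mem_range.1 hi)) (by
      rw [card_image_of_injOn fun i hi j hj =>
        x1.2 i (mem_range.1 (mem_coe.1 hi)) j (mem_range.1 (mem_coe.1 hj)), card_range, hs])
  obtain ⟨p, p1, p2, p3⟩ := app (U := U \ X) (g := a) (f := b) (a := k) (b := k)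
    ⟨fun i hi => (ab i hi).1, fun i hi j hj => (ab' i hi j hj).1⟩
    ⟨fun i hi => (ab i hi).2.1, fun i hi j hj => (ab' i hi j hj).2.1⟩
    fun i hi j hj => (ab' i hi j hj).2.2
  obtain ⟨q, q1, q2, q3⟩ := app (U := U \ X) (g := y) (f := u) (a := R) (b := R)
    ⟨fun i hi => (yu i hi).1, fun i hi j hj => (yu' i hi j hj).1⟩
    ⟨fun i hi => (yu i hi).2.1, fun i hi j hj => (yu' i hi j hj).2.1⟩
    fun i hi j hj => (yu' i hi j hj).2.2
  obtain ⟨r, r1, r2, r3⟩ := app p1 q1 fun i hi j hj e => by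
    rcases lt_or_ge i k with c1 | c1 <;> rcases lt_or_ge j R with c2 | c2
    · rw [p2 i c1, q2 j c2] at e
      exact ((yu j c2).2.2 i c1).1 e.symm
    · obtain ⟨j, rfl⟩ := Nat.exists_eq_add_of_le c2
      rw [p2 i c1, q3] at e
      exact ((yu j (by omega)).2.2 i c1).2.2.1 e.symm
    · obtain ⟨i, rfl⟩ := Nat.exists_eq_add_of_le c1
      rw [p3, q2 j c2] at e
      exact ((yu j c2).2.2 i (by omega)).2.1 e.symm
    · obtain ⟨i, rfl⟩ := Nat.exists_eq_add_of_le c1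
      obtain ⟨j, rfl⟩ := Nat.exists_eq_add_of_le c2
      rw [p3, q3] at e
      exact ((yu j (by omega)).2.2 i (by omega)).2.2.2 e.symm
  obtain ⟨g₁, a1, a2, a3⟩ := app x1 ⟨fun i hi => (mem_sdiff.1 (r1.1 i hi)).1, r1.2⟩
    fun i hi j hj e => (mem_sdiff.1 (r1.1 j hj)).2 (e ▸ x2 i hi)
  obtain ⟨g₂, b1, b2, b3⟩ := ext a1 (fun i => U.filter (h (x i))) s fun i hi =>
    ⟨filter_subset _ _, by have := ((hX _).1 (x2 i hi)).2; omega⟩
  obtain ⟨g₃, c1, c2, c3⟩ := ext b1 (fun _ => Lo) (2 * (c - k) + 2 * (3 * D - R)) fun i hi =>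
    ⟨hLo ▸ filter_subset _ _, by omega⟩
  obtain ⟨π1, π2⟩ := pm_ok (s := s) (c := c) (k := k) (R := R) (D := D) (by omega) (by omega)
  obtain ⟨π3, π4, π5, π6⟩ := pm_v (s := s) (c := c) (k := k) (R := R) (D := D) (by omega) (by omega)
  rw [show s + (k + k + (R + R)) + s + (2 * (c - k) + 2 * (3 * D - R)) = 2 * s + 2 * c + 6 * D by
    omega] at c1
  obtain ⟨g, hg⟩ : ∃ g : ℕ → V, ∀ i, g i = g₃ (pm s c k R D i) := ⟨_, fun _ => rfl⟩
  have d1 : Sq U g (2 * s + 2 * c + 6 * D) := ⟨fun i hi => hg i ▸ c1.1 _ (π1 i hi),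
    fun i hi j hj e => π2 i j (c1.2 _ (π1 i hi) _ (π1 j hj) (by rwa [hg, hg] at e))⟩
  have e1 : ∀ i j, pm s c k R D i = s + j → j < k + k + (R + R) → g i = r j := fun i j e hj => by
    rw [hg, e, c2 _ (by omega), b2 _ (by omega), a3]
  have e2 : ∀ i, s + (k + k + (R + R)) + s ≤ pm s c k R D i → i < 2 * s + 2 * c + 6 * D →
      (U.filter (h (g i))).card ≤ 8 * c := fun i e hi => by
    obtain ⟨j, hj⟩ := Nat.exists_eq_add_of_le e
    have := π1 i hi
    have := (mem_filter.1 (hLo ▸ c3 j (by omega))).2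
    rw [hg, hj]
    omega
  have d2 : ∀ i < s, g i = x i := fun i hi => by
    rw [hg, pm, if_pos (by omega), c2 _ (by omega), b2 _ (by omega), a2 i hi]
  have d3 : ∀ v ∈ X, ∃ i < s, g i = v := fun v hv => by
    obtain ⟨i, hi, rfl⟩ := mem_image.1 (x3 ▸ hv)
    exact ⟨i, mem_range.1 hi, d2 i (mem_range.1 hi)⟩
  refine ⟨s, t, g, tc, tl, ⟨d1.1, d1.2, fun v hv hn => ?_, fun i hi => ?_, fun j hj => ?_,
    fun i v hv => ?_, fun i hi => ?_⟩, ⟨fun i hi => XU (st.mc i hi), fun i hi v hv =>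
      ⟨XU (st.ml i hi v hv).1, (st.ml i hi v hv).2⟩, st.cd, st.dj⟩, hc, by omega, ht⟩
  · by_contra e
    obtain ⟨i, hi, e⟩ := d3 v ((hX v).2 ⟨hv, not_le.1 e⟩)
    exact hn i hi e
  · rw [d2 i hi, hg, π3 i hi, c2 _ (by omega)]
    exact (mem_filter.1 (b3 i hi)).2
  · have e : j < k := by omega
    rw [e1 (s + j) j (π4 j e).1 (by omega), e1 (s + c + j) (k + j) (π4 j e).2 (by omega),
      r2 _ (by omega), r2 _ (by omega), p2 j e, p3]
    exact (ab j e).2.2
  · unfold sv at hv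
    split_ifs at hv with e
    · refine ⟨e, d3 v ?_⟩
      rcases mem_insert.1 hv with rfl | hv
      exacts [st.mc i e, (st.ml i e v hv).1]
    · exact absurd hv (notMem_empty v)
  · rcases lt_or_ge i R with e | e
    · rw [cg (y := y) (u := u) _ fun j hj => ⟨?_, ?_⟩]
      · exact tp i e
      · rw [e1 _ _ (π5 j (hj.trans_lt e)).1 (by omega), r3, q2 j (hj.trans_lt e)]
      · rw [e1 _ _ (π5 j (hj.trans_lt e)).2 (by omega), r3, q3]
    · have := low (h := h) (S := sv t tc tl) (y := fun k => g (2 * s + 2 * c + k))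
        (u := fun k => g (2 * s + 2 * c + 3 * D + k)) (i := i) (d := 8 * c)
        ⟨fun j hj => d1.1 _ (by omega), fun j hj l hl q =>
          Nat.add_left_cancel (d1.2 _ (by omega) _ (by omega) q)⟩
        ⟨fun j hj => d1.1 _ (by omega), fun j hj l hl q =>
          Nat.add_left_cancel (d1.2 _ (by omega) _ (by omega) q)⟩ (if_neg (by omega))
        (e2 _ (π6 i (by omega) e).1 (by omega)) (e2 _ (π6 i (by omega) e).2 (by omega))
      omega

end Pool.Agent.MP_f65396_co.h15l
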