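import Pool.Agent.MP_f65396_co.h15l.Spec
import Pool.Agent.MP_f65396_co.h15.Sel
import Mathlib.Algebra.BigOperators.Ring.Finset

/-! The first choices in the spread case. -/

set_option autoImplicit false

namespace Pool.Agent.MP_f65396_co.h15l

open Finset Pool.Agent.MP_f65396_co.h15

namespace SelA1

lemma num {M c i t D d f Q σ e g : ℕ} (hc : 1 ≤ c) (hM : 10 ^ 9 * c ≤ M) (hD : 4000 * D ≤ M)
    (hi : i < 40 * c) (ht : t ≤ c) (hf : 2 * f + 1 ≤ 4 * d + 5)
    (hQ : Q + M * (168 * (c * d) + g) ≤ (c - 1) * M ^ 2 + e * M)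
    (hσ : 100 * σ ≤ (if i < t then t - i + 1 else 0) * (19 * M ^ 2))
    (hor : (g = 211 * c ∧ e = 0 ∧ t = 0) ∨ 100 * e + 21000 * c + 19 * M < 81 * (t * M)) :
    Q + σ + 4 * (i * D * M) + (c - 1 + (t - i) + i) * ((2 * (2 * i + f) + 1) * M) <
      (c - 1 + (t - i) + i) * M ^ 2 := by
  have M0 : 0 < M := by omega
  have a1 : (c - 1 + (t - i) + i) * ((2 * (2 * i + f) + 1) * M) ≤
      41 * c * ((4 * i + 4 * d + 5) * M) :=
    Nat.mul_le_mul (by omega) (Nat.mul_le_mul_right _ (by omega))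
  have a2 := Nat.mul_le_mul_left (i * M) hD
  have a3 := Nat.mul_le_mul_left (i * M) (show 164000 * c ≤ M by omega)
  have a4 := Nat.mul_pos hc M0
  have a5 := Nat.zero_le (M * g)
  have a6 := Nat.zero_le (M * (c * d))
  have a7 := Nat.zero_le (i * M ^ 2)
  have a8 := Nat.zero_le (M ^ 2)
  generalize c - 1 = r at *
  rcases hor with ⟨rfl, rfl, rfl⟩ | hor
  · rw [if_neg (Nat.not_lt_zero i)] at hσ
    rw [Nat.zero_sub] at a1 ⊢
    linarith
  · have b1 := Nat.mul_lt_mul_of_pos_right hor M0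
    by_cases hit : i < t
    · rw [if_pos hit] at hσ
      obtain ⟨j, rfl⟩ := Nat.exists_eq_add_of_le hit.le
      rw [Nat.add_sub_cancel_left] at a1 hσ ⊢
      linarith
    · rw [if_neg hit] at hσ
      rw [show t - i = 0 by omega] at a1 ⊢
      have b2 := Nat.mul_le_mul_right (M ^ 2) (not_lt.1 hit)
      linarith

variable {V : Type} [DecidableEq V] {h : V → V → Prop} {X : Finset V} {t : ℕ} {tc : ℕ → V}
  {tl : ℕ → Finset V}

lemma sv_sub (H : St h X t tc tl) (i : ℕ) : sv t tc tl i ⊆ X := by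
  unfold sv
  split_ifs with hi
  · exact insert_subset (H.mc i hi) fun v hv => (H.ml i hi v hv).1
  · exact empty_subset _

lemma sv_card (H : St h X t tc tl) (i : ℕ) :
    (sv t tc tl i).card ≤ if i < t then t - i + 1 else 0 := by
  unfold sv
  split_ifs with hi
  · exact (card_insert_le _ _).trans (by rw [H.cd i hi])
  · simp

end SelA1

open SelA1

theorem selA1 (hg : GapS) (hs : StarS) (ht : Top1S) : SelA1S := by
  intro V _ U h _ n c X G hT hX
  have hc : 2 ≤ c := by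
    by_contra a
    exact hT ∅ ⟨empty_subset _, by have := G.hc; simp; omega, by simp, by simp⟩
  have XU : X ⊆ U := fun v hv => ((hX v).1 hv).1
  have low : ∀ v ∈ U \ X, (U.filter (h v)).card ≤ n / 10000 := fun v hv => by
    by_contra a
    exact (mem_sdiff.1 hv).2 ((hX v).2 ⟨(mem_sdiff.1 hv).1, by omega⟩)
  obtain ⟨X0, hX0⟩ : ∃ X0 : Finset V, ∀ x, x ∈ X0 ↔
      x ∈ X ∧ 9 * (U \ X).card ≤ 10 * ((U \ X).filter (h x)).card :=
    ⟨X.filter _, fun x => mem_filter⟩
  obtain ⟨e, he⟩ : ∃ e, e = ∑ x ∈ X0, (X0.filter (fun v => v ≠ x ∧ ¬ h x v)).card := ⟨_, rfl⟩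
  obtain ⟨g1, g2, g3, g4⟩ := hg V U h n c e X X0 G hT hX hX0 he
  have hU := G.hU
  have hn := G.hn
  have hW : (U \ X).card + X.card = n + c := by rw [card_sdiff_add_card_eq_card XU, hU]
  have hM : 10 ^ 9 * c ≤ (U \ X).card := by omega
  obtain ⟨w0, -⟩ : U.Nonempty := card_pos.1 (by omega)
  obtain ⟨t, tc, tl, s1, s2, s3⟩ : ∃ (t : ℕ) (tc : ℕ → V) (tl : ℕ → Finset V),
      St h X0 t tc tl ∧ t ≤ c ∧ (((if e = 0 then 211 * c else 0) = 211 * c ∧ e = 0 ∧ t = 0) ∨
        100 * e + 21000 * c + 19 * (U \ X).card < 81 * (t * (U \ X).card)) := by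
    rcases Nat.eq_zero_or_pos e with e0 | e0
    · exact ⟨0, fun _ => w0, fun _ => ∅, ⟨by simp, by simp, by simp, by simp⟩, by omega,
        Or.inl ⟨if_pos e0, e0, rfl⟩⟩
    · obtain ⟨t, tc, tl, a1, a2, a3⟩ := hs V h X0 c _ e G.hs g2 hM he e0
      exact ⟨t, tc, tl, a1, a2, Or.inr a3⟩
  obtain ⟨a, b, hab, hd⟩ : ∃ a b : ℕ → V,
      (∀ i < c - X.card, a i ∈ U \ X ∧ b i ∈ U \ X ∧ h (a i) (b i)) ∧
      ∀ i < c - X.card, ∀ j < i, a i ≠ a j ∧ a i ≠ b j ∧ b i ≠ a j ∧ b i ≠ b j := by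
    by_cases k0 : X.card < c
    · refine Sel.pairs (D := n / 10000) w0 G.hs (fun u hu =>
        (card_le_card (filter_subset_filter _ sdiff_subset)).trans (low u hu)) ?_
      rw [mul_assoc, show c - X.card - 1 = c - 1 - X.card by omega]
      exact g3 k0
    · exact ⟨tc, tc, fun i hi => by omega, fun i hi => by omega⟩
  have A1 : ∀ i < c - X.card, ∀ j < c - X.card,
      (a i = a j → i = j) ∧ (b i = b j → i = j) ∧ a i ≠ b j := by
    intro i hi j hj
    rcases lt_trichotomy i j with hij | rfl | hij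
    · have := hd j hj i hij
      exact ⟨fun e => absurd e.symm this.1, fun e => absurd e.symm this.2.2.2, this.2.2.1.symm⟩
    · exact ⟨fun _ => rfl, fun _ => rfl, fun e => G.hi _ (e ▸ (hab i hi).2.2)⟩
    · have := hd i hi j hij
      exact ⟨fun e => absurd e this.1, fun e => absurd e this.2.2.2, this.2.1⟩
  have X0X : X0 ⊆ X := fun x hx => ((hX0 x).1 hx).1
  obtain ⟨y, u, t1, t2, t3⟩ := ht V U (U \ X)
    ((range (c - X.card)).image a ∪ (range (c - X.card)).image b) h c (n / 10000) t (40 * c)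
    (2 * (c - X.card)) (sv t tc tl) w0 G.hs sdiff_subset
    ((card_union_le _ _).trans (by
      have h1 := card_image_le (s := range (c - X.card)) (f := a)
      have h2 := card_image_le (s := range (c - X.card)) (f := b)
      rw [card_range] at h1 h2
      omega))
    low G.hc (fun i => (sv_sub s1 i).trans (X0X.trans XU)) fun i hi =>
      num G.hc hM (by omega) hi s2 (by omega) g4 (by
        rw [mul_sum]
        refine (sum_le_card_nsmul _ _ (19 * (U \ X).card ^ 2) fun v hv => ?_).trans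
          (Nat.mul_le_mul_right _ (sv_card s1 i))
        have h1 := Nat.pow_le_pow_left ((hX0 v).1 (sv_sub s1 i hv)).2 2
        rw [mul_pow, mul_pow] at h1
        omega) s3
  refine ⟨hc, g1, t, tc, tl, a, b, y, u, ⟨fun i hi => X0X (s1.mc i hi), fun i hi v hv =>
    ⟨X0X (s1.ml i hi v hv).1, (s1.ml i hi v hv).2⟩, s1.cd, s1.dj⟩, s2, hab, A1, fun i hi => ?_,
    t2, t3⟩
  have h1 := mem_sdiff.1 (t1 i hi).1
  have h2 := mem_sdiff.1 (t1 i hi).2
  refine ⟨h1.1, h2.1, fun j hj => ?_⟩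
  have h3 : a j ∈ (range (c - X.card)).image a ∪ (range (c - X.card)).image b :=
    mem_union_left _ (mem_image_of_mem _ (mem_range.2 hj))
  have h4 : b j ∈ (range (c - X.card)).image a ∪ (range (c - X.card)).image b :=
    mem_union_right _ (mem_image_of_mem _ (mem_range.2 hj))
  exact ⟨fun e => h1.2 (e ▸ h3), fun e => h1.2 (e ▸ h4), fun e => h2.2 (e ▸ h3),
    fun e => h2.2 (e ▸ h4)⟩

end Pool.Agent.MP_f65396_co.h15l
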