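import Pool.Agent.MP_f65396_co.h15l.Spec
import Pool.Agent.MP_f65396_co.h15o.SelB

/-! The special vertices in the nearly complete case. -/

set_option autoImplicit false

namespace Pool.Agent.MP_f65396_co.h15l

open Finset
open Pool.Agent.MP_f65396_co.h15o (SelB.list SelB.split SelB.half SelB.degle SelB.full)

theorem selB (hi : IdS) : SelBS := by
  intro V _ U h _ n c X u x y y' G T hu hx hux hy hy' hyy hyu hyu'
  obtain ⟨hXU, hXc, -, hd⟩ := T
  have hId := hi V U h n c X G hXU hXc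
  have hsp := SelB.split (h := h) G.hs hXU
  obtain ⟨F, hF, hFc⟩ := SelB.full (U := U) (X := X) (h := h)
  have hW : (U \ X).card + X.card = n + c := by
    rw [card_sdiff_add_card_eq_card hXU, G.hU]
  have hX1 : 0 < X.card := card_pos.2 ⟨x, hx⟩
  have hcn : 10 ^ 10 * c ≤ n := G.hn
  obtain ⟨D, hD⟩ : ∃ D, D = n / 10000 := ⟨_, rfl⟩
  obtain ⟨s, hs⟩ : ∃ s, s = c - 1 := ⟨_, rfl⟩
  rw [← hD, ← hs]
  have hsX : s = X.card := by omega
  have hD1 : 1 ≤ D := by omega
  have hFM : 2 * s + 2 * c + 6 * D ≤ F.card := by omega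
  obtain ⟨a, ha1, ha2, ha3⟩ := SelB.list X u
  obtain ⟨r, hr1, hr2, -⟩ := SelB.list F u
  rw [← hsX] at ha1 ha2 ha3
  have huF : u ∉ F := fun e => hux (((hF u e).2 x (hXU hx)).2 hx)
  have hyF : y ∉ F := fun e =>
    (mem_sdiff.1 hy').2 (((hF y e).2 y' (mem_sdiff.1 hy').1).1 hyy)
  have hyF' : y' ∉ F := fun e =>
    (mem_sdiff.1 hy).2 (((hF y' e).2 y (mem_sdiff.1 hy).1).1 (G.hs _ _ hyy))
  have hne : y ≠ y' := fun e => G.hi y (by rw [← e] at hyy; exact hyy)
  obtain ⟨g, hg⟩ : ∃ g : ℕ → V, g = fun i => if i < s then a i else if i = s then y else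
    if i = s + c then y' else if i = 2 * s + 2 * c + 3 * D then u else r i := ⟨_, rfl⟩
  have g1 : ∀ i < s, g i = a i := fun i hi => by rw [hg]; exact if_pos hi
  have g2 : g s = y := by
    rw [hg]
    simp only [if_neg (lt_irrefl s), if_true]
  have g3 : g (s + c) = y' := by
    rw [hg]
    simp only [if_neg (show ¬ s + c < s by omega), if_neg (show ¬ s + c = s by omega), if_true]
  have g4 : ∀ i, i = 2 * s + 2 * c + 3 * D → g i = u := fun i hi => by
    rw [hg]
    simp only [if_neg (show ¬ i < s by omega), if_neg (show ¬ i = s by omega),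
      if_neg (show ¬ i = s + c by omega), if_pos hi]
  have g5 : ∀ i, s < i → i ≠ s + c → i ≠ 2 * s + 2 * c + 3 * D → g i = r i :=
    fun i h1 h2 h3 => by
      rw [hg]
      simp only [if_neg (show ¬ i < s by omega), if_neg (show ¬ i = s by omega), if_neg h2,
        if_neg h3]
  have cs : ∀ i < 2 * s + 2 * c + 6 * D, (i < s ∧ g i = a i ∧ g i ∈ X) ∨ (i = s ∧ g i = y) ∨
      (i = s + c ∧ g i = y') ∨ (i = 2 * s + 2 * c + 3 * D ∧ g i = u) ∨
      (g i = r i ∧ g i ∈ F) := fun i hi => by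
    rcases lt_trichotomy i s with h1 | h1 | h1
    · exact Or.inl ⟨h1, g1 i h1, g1 i h1 ▸ ha1 i h1⟩
    · exact Or.inr (Or.inl ⟨h1, h1 ▸ g2⟩)
    · by_cases h2 : i = s + c
      · exact Or.inr (Or.inr (Or.inl ⟨h2, h2 ▸ g3⟩))
      · by_cases h3 : i = 2 * s + 2 * c + 3 * D
        · exact Or.inr (Or.inr (Or.inr (Or.inl ⟨h3, g4 i h3⟩)))
        · have e := g5 i h1 h2 h3
          exact Or.inr (Or.inr (Or.inr (Or.inr ⟨e, e ▸ hr1 i (by omega)⟩)))
  have gF : ∀ i, s + c < i → i < 2 * s + 2 * c + 6 * D → i ≠ 2 * s + 2 * c + 3 * D → g i ∈ F :=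
    fun i h1 h2 h3 => g5 i (by omega) (by omega) h3 ▸ hr1 i (by omega)
  have gW : ∀ i, s + c < i → i < 2 * s + 2 * c + 6 * D → g i ∈ U \ X := fun i h1 h2 => by
    by_cases h3 : i = 2 * s + 2 * c + 3 * D
    · exact g4 i h3 ▸ hu
    · exact (hF _ (gF i h1 h2 h3)).1
  have nadj : ∀ v ∈ F, ∀ z ∈ U \ X, ¬ h v z := fun v hv z hz e =>
    (mem_sdiff.1 hz).2 (((hF v hv).2 z (mem_sdiff.1 hz).1).1 e)
  have FX : ∀ v ∈ F, v ∉ X := fun v hv => (mem_sdiff.1 (hF v hv).1).2
  have huX := (mem_sdiff.1 hu).2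
  have hyX := (mem_sdiff.1 hy).2
  have hyX' := (mem_sdiff.1 hy').2
  refine ⟨g, fun i hi => ?_, fun i hi j hj e => ?_, fun v hv hn => ?_, fun i hi => ?_,
    fun j hj => ?_, fun i v hv => absurd hv (notMem_empty v), fun i hi => ?_⟩
  · rcases cs i hi with h1 | h1 | h1 | h1 | h1
    · exact hXU h1.2.2
    · exact h1.2 ▸ (mem_sdiff.1 hy).1
    · exact h1.2 ▸ (mem_sdiff.1 hy').1
    · exact h1.2 ▸ (mem_sdiff.1 hu).1
    · exact (mem_sdiff.1 (hF _ h1.2).1).1
  · rcases cs i hi with h1 | h1 | h1 | h1 | h1 <;> rcases cs j hj with h2 | h2 | h2 | h2 | h2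
    · exact ha2 i h1.1 j h2.1 (h1.2.1.symm.trans (e.trans h2.2.1))
    · exact absurd ((e.trans h2.2) ▸ h1.2.2) hyX
    · exact absurd ((e.trans h2.2) ▸ h1.2.2) hyX'
    · exact absurd ((e.trans h2.2) ▸ h1.2.2) huX
    · exact absurd (e ▸ h1.2.2) (FX _ h2.2)
    · exact absurd ((e.symm.trans h1.2) ▸ h2.2.2) hyX
    · omega
    · exact absurd (h1.2.symm.trans (e.trans h2.2)) hne
    · exact absurd (h1.2.symm.trans (e.trans h2.2)) hyu
    · exact absurd ((e.symm.trans h1.2) ▸ h2.2) hyF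
    · exact absurd ((e.symm.trans h1.2) ▸ h2.2.2) hyX'
    · exact absurd (h1.2.symm.trans (e.trans h2.2)) hne.symm
    · omega
    · exact absurd (h1.2.symm.trans (e.trans h2.2)) hyu'
    · exact absurd ((e.symm.trans h1.2) ▸ h2.2) hyF'
    · exact absurd ((e.symm.trans h1.2) ▸ h2.2.2) huX
    · exact absurd (h1.2.symm.trans (e.trans h2.2)) hyu.symm
    · exact absurd (h1.2.symm.trans (e.trans h2.2)) hyu'.symm
    · omega
    · exact absurd ((e.symm.trans h1.2) ▸ h2.2) huF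
    · exact absurd (e.symm ▸ h2.2.2) (FX _ h1.2)
    · exact absurd ((e.trans h2.2) ▸ h1.2) hyF
    · exact absurd ((e.trans h2.2) ▸ h1.2) hyF'
    · exact absurd ((e.trans h2.2) ▸ h1.2) huF
    · exact hr2 i (by omega) j (by omega) (h1.1.symm.trans (e.trans h2.1))
  · have hvX : v ∉ X := fun e => by
      obtain ⟨i, hi, rfl⟩ := ha3 v e
      exact hn i hi (g1 i hi)
    have h1 := SelB.degle (U := U) (X := X) (h := h) v
    have h2 := SelB.half (U \ X) G.hs G.hi (mem_sdiff.2 ⟨hv, hvX⟩)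
    omega
  · have h1 : g i ∈ X := g1 i hi ▸ ha1 i hi
    exact G.hs _ _ (((hF _ (gF (s + 2 * c + i) (by omega) (by omega) (by omega))).2 _ (hXU h1)).2 h1)
  · obtain rfl : j = 0 := by omega
    rw [Nat.add_zero, Nat.add_zero, g2, g3]
    exact hyy
  · have h0 : g (2 * s + 2 * c + i) ∈ F := gF _ (by omega) (by omega) (by omega)
    have z0 : ∀ (v : V) (o : ℕ), (0 < i → v ∈ F) → s + c < o → o ≤ 2 * s + 2 * c + 3 * D →
        ((range i).filter fun k => h v (g (o + k))).card = 0 := fun v o h1 h2 h3 =>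
      card_eq_zero.2 (filter_eq_empty_iff.2 fun k hk => by
        have := mem_range.1 hk
        exact nadj _ (h1 (by omega)) _ (gW _ (by omega) (by omega)))
    have h1 : 0 < i → g (2 * s + 2 * c + 3 * D + i) ∈ F := fun _ =>
      gF _ (by omega) (by omega) (by omega)
    unfold tcost
    beta_reduce
    rw [union_empty, z0 _ _ h1 (by omega) (by omega), z0 _ _ h1 (by omega) le_rfl,
      z0 _ _ (fun _ => h0) (by omega) (by omega), z0 _ _ (fun _ => h0) (by omega) le_rfl]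
    rcases Nat.eq_zero_or_pos i with h2 | h2
    · have h3 : (U.filter fun z => h (g (2 * s + 2 * c + 3 * D + i)) z ∧
          h (g (2 * s + 2 * c + i)) z).card ≤ (X.erase x).card := card_le_card fun z hz => by
        obtain ⟨h3, h4, h5⟩ := mem_filter.1 hz
        rw [g4 (2 * s + 2 * c + 3 * D + i) (by omega)] at h4
        exact mem_erase.2 ⟨fun e => hux (e ▸ h4), ((hF _ h0).2 z h3).1 h5⟩
      rw [card_erase_of_mem hx] at h3
      omega
    · have h3 : (U.filter fun z => h (g (2 * s + 2 * c + 3 * D + i)) z ∧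
          h (g (2 * s + 2 * c + i)) z).card ≤ X.card := card_le_card fun z hz =>
        ((hF _ h0).2 z (mem_filter.1 hz).1).1 (mem_filter.1 hz).2.2
      omega

end Pool.Agent.MP_f65396_co.h15l
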