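import Pool.Agent.MP_f65396_co.h15l.Spec
import Mathlib.Algebra.Order.BigOperators.Group.Finset
import Mathlib.Tactic.Linarith

/-! Edge-disjoint stars of sizes `t, t - 1, …, 1`. -/

set_option autoImplicit false

namespace Pool.Agent.MP_f65396_co.h15l

open Finset

namespace Star

theorem step {V : Type} [DecidableEq V] (h : V → V → Prop) [DecidableRel h] (X : Finset V)
    (Q : Finset (V × V)) (r : ℕ)
    (he : r * X.card + Q.card < ∑ x ∈ X, (X.filter (fun v => v ≠ x ∧ ¬ h x v)).card) :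
    ∃ x ∈ X, r < (X.filter (fun v => (v ≠ x ∧ ¬ h x v) ∧ (x, v) ∉ Q)).card := by
  by_contra hc
  push Not at hc
  have h1 : ∀ x ∈ X, (X.filter (fun v => v ≠ x ∧ ¬ h x v)).card ≤
      r + (Q.filter (fun p => p.1 = x)).card := fun x hx => by
    have h2 : X.filter (fun v => v ≠ x ∧ ¬ h x v) ⊆
        X.filter (fun v => (v ≠ x ∧ ¬ h x v) ∧ (x, v) ∉ Q) ∪
          (Q.filter (fun p => p.1 = x)).image Prod.snd := fun v hv => by
      rw [mem_filter] at hv
      by_cases hq : (x, v) ∈ Q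
      · exact mem_union_right _ (mem_image.2 ⟨(x, v), mem_filter.2 ⟨hq, rfl⟩, rfl⟩)
      · exact mem_union_left _ (mem_filter.2 ⟨hv.1, hv.2, hq⟩)
    exact (card_le_card h2).trans ((card_union_le _ _).trans
      (Nat.add_le_add (hc x hx) card_image_le))
  have h3 := sum_le_sum h1
  rw [sum_add_distrib, sum_const, smul_eq_mul, sum_card_fiberwise_eq_card_filter] at h3
  have h4 := card_filter_le Q (fun p => p.1 ∈ X)
  rw [mul_comm] at he
  omega

theorem greedy {V : Type} [DecidableEq V] (h : V → V → Prop) [DecidableRel h] (X : Finset V)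
    (r : ℕ) (v0 : V)
    (he : r * (X.card + 2 * (r + 1)) < ∑ x ∈ X, (X.filter (fun v => v ≠ x ∧ ¬ h x v)).card) :
    ∀ j ≤ r + 1, ∃ (tc : ℕ → V) (tl : ℕ → Finset V), (∀ i < j, tc i ∈ X) ∧
      (∀ i < j, ∀ v ∈ tl i, v ∈ X ∧ v ≠ tc i ∧ ¬ h (tc i) v) ∧
      (∀ i < j, (tl i).card = r + 1 - i) ∧
      ∀ i < j, ∀ k < j, ∀ v ∈ tl i, ∀ w ∈ tl k, s(tc i, v) = s(tc k, w) → i = k := by
  intro j
  induction j with
  | zero => exact fun _ => ⟨fun _ => v0, fun _ => ∅, by simp, by simp, by simp, by simp⟩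
  | succ j ih =>
    intro hj
    obtain ⟨tc, tl, a1, a2, a3, a4⟩ := ih (by omega)
    obtain ⟨Q, hQ⟩ : ∃ Q : Finset (V × V), Q = (range j).biUnion fun i =>
      (tl i).image (fun w => (tc i, w)) ∪ (tl i).image (fun w => (w, tc i)) := ⟨_, rfl⟩
    have hc : Q.card ≤ j * (2 * (r + 1)) := by
      rw [hQ]
      refine card_biUnion_le.trans ((sum_le_card_nsmul _ _ (2 * (r + 1)) fun i hi => ?_).trans
        (by rw [card_range, smul_eq_mul]))
      have b1 := a3 i (mem_range.1 hi)
      have b2 := card_union_le ((tl i).image fun w => (tc i, w)) ((tl i).image fun w => (w, tc i))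
      have b3 : ((tl i).image fun w => (tc i, w)).card ≤ (tl i).card := card_image_le
      have b4 : ((tl i).image fun w => (w, tc i)).card ≤ (tl i).card := card_image_le
      omega
    have hj' : j * (2 * (r + 1)) ≤ r * (2 * (r + 1)) := Nat.mul_le_mul_right _ (by omega)
    obtain ⟨x, hx, hlt⟩ := step h X Q r (by rw [mul_add] at he; omega)
    obtain ⟨L, hL, hLc⟩ := exists_subset_card_eq (n := r + 1 - j) (le_trans (by omega) hlt)
    have hf : ∀ v ∈ L, ∀ i < j, ∀ w ∈ tl i, s(x, v) ≠ s(tc i, w) := fun v hv i hi w hw e => by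
      refine (mem_filter.1 (hL hv)).2.2 ?_
      rw [hQ]
      refine mem_biUnion.2 ⟨i, mem_range.2 hi, ?_⟩
      rcases Sym2.eq_iff.1 e with ⟨e1, e2⟩ | ⟨e1, e2⟩
      · exact mem_union_left _ (mem_image.2 ⟨w, hw, by rw [e1, e2]⟩)
      · exact mem_union_right _ (mem_image.2 ⟨w, hw, by rw [e1, e2]⟩)
    refine ⟨fun i => if i < j then tc i else x, fun i => if i < j then tl i else L, ?_, ?_, ?_, ?_⟩
    · intro i _
      by_cases b : i < j
      · simp only [if_pos b]; exact a1 i b
      · simp only [if_neg b]; exact hx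
    · intro i _ v
      by_cases b : i < j
      · simp only [if_pos b]; exact a2 i b v
      · simp only [if_neg b]
        exact fun hv => ⟨(mem_filter.1 (hL hv)).1, (mem_filter.1 (hL hv)).2.1⟩
    · intro i hi
      by_cases b : i < j
      · simp only [if_pos b]; exact a3 i b
      · simp only [if_neg b]
        rw [hLc, show i = j by omega]
    · intro i hi k hk v
      by_cases b : i < j <;> by_cases b' : k < j
      · simp only [if_pos b, if_pos b']; exact a4 i b k b' v
      · simp only [if_pos b, if_neg b']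
        exact fun hv w hw e => absurd e.symm (hf w hw i b v hv)
      · simp only [if_neg b, if_pos b']
        exact fun hv w hw e => absurd e (hf v hv k b' w hw)
      · exact fun _ _ _ _ => by omega

end Star

theorem star : StarS := by
  intro V _ h _ X c M e _ hX hM he h0
  have hle : e ≤ X.card * X.card := by
    rw [he]
    exact (sum_le_card_nsmul _ _ X.card fun x _ => card_filter_le _ _).trans
      (by rw [smul_eq_mul])
  have hX0 : 0 < X.card := Nat.pos_of_ne_zero fun h1 => by rw [h1] at hle; omega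
  obtain ⟨v0, -⟩ := card_pos.1 hX0
  have h4 : e ≤ 2 * c * (2 * c) := hle.trans (Nat.mul_le_mul hX hX)
  have hc : 0 < c := by omega
  by_cases hs : 2 * e ≤ M
  · obtain ⟨tc, tl, a1, a2, a3, a4⟩ := Star.greedy h X 0 v0 (by rw [← he]; omega) 1 le_rfl
    exact ⟨1, tc, tl, ⟨a1, a2, a3, a4⟩, hc, by omega⟩
  have hM0 : 0 < M := by omega
  obtain ⟨q, hq⟩ : ∃ q, q = e / M := ⟨_, rfl⟩
  have q1 : q * M ≤ e := hq ▸ Nat.div_mul_le_self e M
  have q2 : e < q * M + M := by
    have := Nat.lt_div_mul_add (a := e) hM0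
    rwa [← hq] at this
  have q3 : q * (10 ^ 9 * c) ≤ q * M := Nat.mul_le_mul_left _ hM
  have p4 : 10 ^ 9 * q * c ≤ 4 * c * c := by linarith
  have q4 : 10 ^ 9 * q ≤ 4 * c := Nat.le_of_mul_le_mul_right p4 hc
  have p5 : 10 ^ 9 * c ≤ 8 * c * c := by linarith [not_le.1 hs]
  have q5 : 10 ^ 9 ≤ 8 * c := Nat.le_of_mul_le_mul_right p5 hc
  have q6 : (2 * q + 1) * (X.card + 2 * (2 * q + 1 + 1)) ≤ (2 * q + 2) * (4 * c) :=
    Nat.mul_le_mul (by omega) (by omega)
  obtain ⟨tc, tl, a1, a2, a3, a4⟩ := Star.greedy h X (2 * q + 1) v0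
    (by rw [← he]; linarith [not_le.1 hs, Nat.zero_le (q * c)]) _ le_rfl
  exact ⟨2 * q + 1 + 1, tc, tl, ⟨a1, a2, a3, a4⟩, by omega, by linarith [not_le.1 hs]⟩

end Pool.Agent.MP_f65396_co.h15l
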