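import Pool.Agent.MP_f65396_co.h15l.Spec
import Mathlib.Algebra.Order.BigOperators.Group.Finset
import Mathlib.Algebra.BigOperators.Ring.Finset
import Mathlib.Tactic.Linarith
import Mathlib.Tactic.Ring

/-! The top pairs, chosen from the top by a second moment count. -/

set_option autoImplicit false

namespace Pool.Agent.MP_f65396_co.h15l

open Finset

namespace Top1

variable {V : Type} [DecidableEq V]

theorem swap {α β : Type} (P : Finset α) (A : Finset β) (r : α → β → Prop)
    [∀ a b, Decidable (r a b)] :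
    ∑ p ∈ P, (A.filter (fun x => r p x)).card = ∑ x ∈ A, (P.filter (fun p => r p x)).card := by
  simp only [card_filter]
  exact sum_comm

theorem s1 (U W S : Finset V) (h : V → V → Prop) [DecidableRel h] (hs : ∀ u v, h u v → h v u)
    (hS : S ⊆ U) :
    ∑ p ∈ W ×ˢ W, (U.filter (fun x => h p.2 x ∧ h p.1 x) ∪ S).card ≤
      ∑ x ∈ U, (W.filter (h x)).card ^ 2 + ∑ v ∈ S, (W.card ^ 2 - (W.filter (h v)).card ^ 2) := by
  have a1 : ∀ x, ((W ×ˢ W).filter (fun p => h p.2 x ∧ h p.1 x)).card =
      (W.filter (h x)).card ^ 2 := by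
    intro x
    rw [sq, ← card_product]
    congr 1
    ext p
    simp only [mem_filter, mem_product]
    exact ⟨fun ⟨⟨a, b⟩, c, d⟩ => ⟨⟨a, hs _ _ d⟩, b, hs _ _ c⟩,
      fun ⟨⟨a, d⟩, b, c⟩ => ⟨⟨a, b⟩, hs _ _ c, hs _ _ d⟩⟩
  have a2 : ∀ p : V × V, (U.filter (fun x => h p.2 x ∧ h p.1 x) ∪ S).card ≤
      (U.filter (fun x => h p.2 x ∧ h p.1 x)).card +
        (S.filter (fun x => ¬(h p.2 x ∧ h p.1 x))).card := by
    intro p
    refine le_trans (card_le_card fun x hx => ?_) (card_union_le _ _)
    simp only [mem_filter, mem_union] at hx ⊢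
    have := @hS x
    tauto
  refine (sum_le_sum fun p _ => a2 p).trans ?_
  rw [sum_add_distrib, swap (W ×ˢ W) U, swap (W ×ˢ W) S]
  refine Nat.add_le_add (sum_le_sum fun x _ => (a1 x).le) (sum_le_sum fun x _ => ?_)
  have a3 := card_filter_add_card_filter_not (s := W ×ˢ W) (fun p => h p.2 x ∧ h p.1 x)
  rw [a1, card_product, ← sq] at a3
  omega

theorem s2 (U W : Finset V) (h : V → V → Prop) [DecidableRel h] (hs : ∀ u v, h u v → h v u)
    (hW : W ⊆ U) (D i : ℕ) (y : ℕ → V) (hy : ∀ k < i, (U.filter (h (y k))).card ≤ D) :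
    ∑ p ∈ W ×ˢ W, ((range i).filter (fun k => h p.2 (y k))).card ≤ i * D * W.card ∧
      ∑ p ∈ W ×ˢ W, ((range i).filter (fun k => h p.1 (y k))).card ≤ i * D * W.card := by
  rw [swap (W ×ˢ W) (range i) (fun p k => h p.2 (y k)),
    swap (W ×ˢ W) (range i) (fun p k => h p.1 (y k)), mul_assoc]
  constructor
  · refine (sum_le_card_nsmul _ _ (D * W.card) fun k hk => ?_).trans (by simp)
    refine (card_le_card (t := W ×ˢ U.filter (h (y k))) fun p hp => ?_).trans ?_
    · simp only [mem_filter, mem_product] at hp ⊢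
      exact ⟨hp.1.1, hW hp.1.2, hs _ _ hp.2⟩
    · rw [card_product, mul_comm]
      exact Nat.mul_le_mul_right _ (hy k (mem_range.1 hk))
  · refine (sum_le_card_nsmul _ _ (D * W.card) fun k hk => ?_).trans (by simp)
    refine (card_le_card (t := U.filter (h (y k)) ×ˢ W) fun p hp => ?_).trans ?_
    · simp only [mem_filter, mem_product] at hp ⊢
      exact ⟨⟨hW hp.1.1, hs _ _ hp.2⟩, hp.1.2⟩
    · rw [card_product]
      exact Nat.mul_le_mul_right _ (hy k (mem_range.1 hk))

theorem pick (W Us : Finset V) (f K L : ℕ) (cost : V × V → ℕ) (hf : Us.card ≤ f)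
    (hL : ∑ p ∈ W ×ˢ W, cost p ≤ L) (hK : L + K * ((2 * f + 1) * W.card) < K * W.card ^ 2) :
    ∃ a ∈ W \ Us, ∃ b ∈ W \ Us, a ≠ b ∧ cost (a, b) < K := by
  by_contra hn
  push Not at hn
  have a1 : (W \ Us).offDiag.card * K ≤ L := by
    refine le_trans ?_ ((sum_le_sum_of_subset (s := (W \ Us).offDiag) fun p hp => ?_).trans hL)
    · rw [← smul_eq_mul]
      refine card_nsmul_le_sum _ _ _ fun p hp => ?_
      obtain ⟨b1, b2, b3⟩ := mem_offDiag.1 hp
      exact hn _ b1 _ b2 b3
    · obtain ⟨b1, b2, -⟩ := mem_offDiag.1 hp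
      exact mem_product.2 ⟨(mem_sdiff.1 b1).1, (mem_sdiff.1 b2).1⟩
  have a2 := offDiag_card (W \ Us)
  have a3 := le_card_sdiff Us W
  have a4 : (W \ Us).card ≤ W.card := card_le_card sdiff_subset
  have a5 := Nat.le_mul_self (W \ Us).card
  generalize (W \ Us).offDiag.card = P at *
  generalize (W \ Us).card = m at *
  obtain ⟨d, hd⟩ := Nat.exists_eq_add_of_le a4
  have a6 : d ≤ f := by omega
  have a7 : W.card ^ 2 ≤ P + (2 * f + 1) * W.card := by
    have b1 : m * m = P + m := by omega
    have b2 := Nat.mul_le_mul_right W.card a6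
    rw [hd] at b2 ⊢
    nlinarith
  have a8 := Nat.mul_le_mul_left K a7
  rw [mul_add, mul_comm K P] at a8
  omega

end Top1

open Top1

theorem top1 : Top1S := by
  intro V _ U W F h _ c D t R f S v0 hs hW hF hD hc hS
  induction R with
  | zero => exact fun _ => ⟨fun _ => v0, fun _ => v0, by simp, by simp, by simp⟩
  | succ R ih =>
    intro hR
    obtain ⟨y, u, h1, h2, h3⟩ := ih fun i hi => hR i (by omega)
    have dy := s2 U W h hs hW D R y fun k hk => hD _ (mem_sdiff.1 (h1 k hk).1).1
    have du := s2 U W h hs hW D R u fun k hk => hD _ (mem_sdiff.1 (h1 k hk).2).1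
    have d0 := s1 U W (S R) h hs (hS R)
    obtain ⟨a, ha, b, hb, hab, hlt⟩ := pick W (F ∪ ((range R).image y ∪ (range R).image u))
      (2 * R + f) (c - 1 + (t - R) + R) _
      (fun p => (U.filter (fun x => h p.2 x ∧ h p.1 x) ∪ S R).card +
        ((range R).filter (fun k => h p.2 (y k))).card +
        ((range R).filter (fun k => h p.2 (u k))).card +
        ((range R).filter (fun k => h p.1 (y k))).card +
        ((range R).filter (fun k => h p.1 (u k))).card)
      (by
        have b1 := card_union_le F ((range R).image y ∪ (range R).image u)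
        have b2 := card_union_le ((range R).image y) ((range R).image u)
        have b3 := card_image_le (s := range R) (f := y)
        have b4 := card_image_le (s := range R) (f := u)
        rw [card_range] at b3 b4
        omega)
      (by
        simp only [sum_add_distrib]
        have := dy.1; have := dy.2; have := du.1; have := du.2
        show _ ≤ ∑ x ∈ U, (W.filter (h x)).card ^ 2 +
          ∑ v ∈ S R, (W.card ^ 2 - (W.filter (h v)).card ^ 2) + 4 * (R * D * W.card)
        omega)
      (hR R (Nat.lt_succ_self R))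
    simp only [mem_sdiff, mem_union, mem_image, mem_range, not_or, not_exists, not_and] at ha hb
    have e1 : ∀ (z : ℕ → V) (w : V), ∀ k < R, Function.update z R w k = z k := fun z w k hk =>
      Function.update_of_ne (by omega) _ _
    have e2 : ∀ (z : ℕ → V) (w : V), Function.update z R w R = w := fun z w =>
      Function.update_self _ _ _
    have e3 : ∀ (z : ℕ → V) (w x : V), ∀ i ≤ R, (range i).filter
        (fun k => h x (Function.update z R w k)) = (range i).filter (fun k => h x (z k)) :=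
      fun z w x i hi => filter_congr fun k hk => by
        rw [e1 z w k (by have := mem_range.1 hk; omega)]
    refine ⟨Function.update y R a, Function.update u R b, fun i hi => ?_, fun i hi k hk => ?_,
      fun i hi => ?_⟩
    · rcases (Nat.lt_succ_iff.1 hi).lt_or_eq with h4 | rfl
      · rw [e1 _ _ i h4, e1 _ _ i h4]; exact h1 i h4
      · rw [e2, e2]; exact ⟨mem_sdiff.2 ⟨ha.1, ha.2.1⟩, mem_sdiff.2 ⟨hb.1, hb.2.1⟩⟩
    · rcases (Nat.lt_succ_iff.1 hi).lt_or_eq with h4 | h4 <;>
        rcases (Nat.lt_succ_iff.1 hk).lt_or_eq with h5 | h5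
      · rw [e1 _ _ i h4, e1 _ _ i h4, e1 _ _ k h5, e1 _ _ k h5]; exact h2 i h4 k h5
      · rw [h5, e1 _ _ i h4, e1 _ _ i h4, e2, e2]
        exact ⟨fun e => (ha.2.2.1 i h4 e).elim, fun e => (hb.2.2.2 i h4 e).elim, hb.2.2.1 i h4⟩
      · rw [h4, e1 _ _ k h5, e1 _ _ k h5, e2, e2]
        exact ⟨fun e => (ha.2.2.1 k h5 e.symm).elim, fun e => (hb.2.2.2 k h5 e.symm).elim,
          fun e => ha.2.2.2 k h5 e.symm⟩
      · rw [h4, h5, e2, e2]; exact ⟨fun _ => rfl, fun _ => rfl, hab⟩
    · have h5 := Nat.lt_succ_iff.1 hi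
      unfold tcost
      rw [e3 _ _ _ i h5, e3 _ _ _ i h5, e3 _ _ _ i h5, e3 _ _ _ i h5]
      rcases h5.lt_or_eq with h4 | rfl
      · rw [e1 _ _ i h4, e1 _ _ i h4]; exact h3 i h4
      · rw [e2, e2]
        simp only at hlt
        omega

end Pool.Agent.MP_f65396_co.h15l
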