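import Pool.Agent.MP_f65396_co.h15l.Wire
import Pool.Agent.MP_f65396_co.h15l.Asm3
import Pool.Agent.MP_f65396_co.h15l.Id
import Pool.Agent.MP_f65396_co.h15l.Gap
import Pool.Agent.MP_f65396_co.h15l.Star
import Pool.Agent.MP_f65396_co.h15l.Top1
import Pool.Agent.MP_f65396_co.h15l.SelA1
import Pool.Agent.MP_f65396_co.h15l.SelA
import Pool.Agent.MP_f65396_co.h15l.SelB
import Pool.Agent.MP_f65396_co.h15l.Sel0
import Pool.Agent.MP_f65396_co.h15l.Core0
import Pool.Agent.MP_f65396_co.h15l.Blk
import Pool.Agent.MP_f65396_co.h15l.Place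
import Pool.Agent.MP_f65396_co.h15l.Plus

/-! Graphs of order at most `(1 + ε) n` decompose into ascending star forests. -/

set_option autoImplicit false

namespace Pool.Agent.MP_f65396_co.h15l

theorem main (V : Type) [Fintype V] (G : SimpleGraph V) (n : ℕ)
    (hE : G.edgeSet.ncard = n * (n + 1) / 2) (hN : 10 ^ 10 * (G.support.ncard - n) ≤ n) :
    Dec3 G n :=
  wire asm3 (selA (selA1 gap star top1)) (selB idS) (sel0 idS) (core0 h15o.ori2) (place blks)
    plus V G n hE hN

end Pool.Agent.MP_f65396_co.h15l
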