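import Pool.Agent.MP_f65396_co.h15l.Spec
import Pool.Agent.MP_f65396_co.h15o.Place

/-! From the list of special vertices to the order of all vertices. -/

set_option autoImplicit false

namespace Pool.Agent.MP_f65396_co.h15l

open Finset
open Pool.Agent.MP_f65396_co.h15o (sg)
open Pool.Agent.MP_f65396_co.h15o.Place (reindex sig sig_lt)

namespace Place

/-- The reversal of the two top blocks. -/
def rev (T D i : ℕ) : ℕ :=
  if i < T then i else if i < T + 3 * D then T + (T + 3 * D - 1 - i) else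
    T + 3 * D + (T + 6 * D - 1 - i)

lemma order {V : Type} [DecidableEq V] {U : Finset V} {N m s c D : ℕ} (hU : U.card = N)
    (g : ℕ → V) (ω : ℕ → ℕ) (hm : ∀ i < 2 * s + 2 * c + 6 * D, g i ∈ U)
    (hi : ∀ i < 2 * s + 2 * c + 6 * D, ∀ j < 2 * s + 2 * c + 6 * D, g i = g j → i = j)
    (h1 : s + c + 3 * D ≤ m) (h2 : 2 * m ≤ N) (h3 : ∀ i < s, m ≤ ω i ∧ ω i < N - m)
    (h4 : ∀ i < s, ∀ j < s, ω i = ω j → i = j) :
    ∃ v : ℕ → V, Set.BijOn v (range N : Finset ℕ) U ∧ (∀ i < s + c, v i = g i) ∧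
      (∀ j < c, v (N - m + (s + j)) = g (s + c + j)) ∧ (∀ i < s, v (ω i) = g (s + 2 * c + i)) ∧
      (∀ k < 3 * D, v (m - 1 - k) = g (2 * s + 2 * c + k)) ∧
      ∀ k < 3 * D, v (N - 1 - k) = g (2 * s + 2 * c + 3 * D + k) := by
  have r1 : ∀ i < 2 * s + 2 * c + 6 * D, rev (2 * s + 2 * c) D i < 2 * s + 2 * c + 6 * D :=
    fun i a => by
      unfold rev
      split_ifs <;> omega
  obtain ⟨v, hv, v1, v2, v3, v4, v5⟩ := h15o.Place.order hU (fun i => g (rev (2 * s + 2 * c) D i))
    ω (fun i a => hm _ (r1 i a)) (fun i a j b e => by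
      have := hi _ (r1 i a) _ (r1 j b) e
      unfold rev at this
      split_ifs at this <;> omega) h1 h2 h3 h4
  refine ⟨v, hv, fun i a => ?_, fun j a => ?_, fun i a => ?_, fun k a => ?_, fun k a => ?_⟩
  · rw [v1 i a, rev, if_pos (by omega)]
  · rw [v2 j a, rev, if_pos (by omega)]
  · rw [v3 i a, rev, if_pos (by omega)]
  · rw [show m - 1 - k = m - 3 * D + (3 * D - 1 - k) by omega, v4 _ (by omega), rev,
      if_neg (by omega), if_pos (by omega)]
    congr 2
    omega
  · rw [show N - 1 - k = N - 3 * D + (3 * D - 1 - k) by omega, v5 _ (by omega), rev,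
      if_neg (by omega), if_neg (by omega)]
    congr 2
    omega

lemma cnt {V : Type} {v w : ℕ → V} {a b i : ℕ} (P : V → Prop) [DecidablePred P]
    (ha : a + 1 + i = b) (hw : ∀ k < i, v (b - 1 - k) = w k) :
    ((Ioo a b).filter (fun x => P (v x))).card ≤ ((range i).filter (fun k => P (w k))).card := by
  refine card_le_card_of_injOn (fun x => b - 1 - x) (fun x hx => ?_) fun x hx y hy e => ?_
  · obtain ⟨a1, a2⟩ := mem_filter.1 (mem_coe.1 hx)
    have := mem_Ioo.1 a1
    have a3 : b - 1 - x < i := by omega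
    refine mem_coe.2 (mem_filter.2 ⟨mem_range.2 a3, ?_⟩)
    rwa [← hw _ a3, show b - 1 - (b - 1 - x) = x by omega]
  · have := mem_Ioo.1 (mem_filter.1 (mem_coe.1 hx)).1
    have := mem_Ioo.1 (mem_filter.1 (mem_coe.1 hy)).1
    dsimp only at e
    omega

end Place

open Place in
theorem place (hb : BlkS) : PlaceS := by
  intro V _ U h _ n c s D t g S hs hi hU hsum d hc hcD hsD htD hB
  obtain ⟨B, eB⟩ : ∃ B, B = n / 500 := ⟨_, rfl⟩
  rw [← eB] at hB ⊢
  obtain ⟨m, em⟩ : ∃ m, m = 150 * B := ⟨_, rfl⟩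
  rw [← em]
  obtain ⟨N, eN⟩ : ∃ N, N = n + c := ⟨_, rfl⟩
  rw [← eN] at hU hsum ⊢
  obtain ⟨ω, bf, w1, w2, w3, w4, w5, w6⟩ := hb s (3 * D) (2 * B + 2 * D) B
    (N - m - (3 * B + 2 * D)) (fun i => sig h g s c i + ((range t).filter
      (fun j => g i ∈ S j ∧ ¬ h (g i) (g (2 * s + 2 * c + 3 * D + j)))).card) (fun i a => by
      have a1 := sig_lt h g (c := c) a
      have a2 := card_filter_le (range t)
        (fun j => g i ∈ S j ∧ ¬ h (g i) (g (2 * s + 2 * c + 3 * D + j)))
      rw [card_range] at a2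
      omega) (by omega) (by omega)
  obtain ⟨v, hv, v1, v2, v3, v4, v5⟩ := order (m := m) hU g ω d.mem d.inj (by omega) (by omega)
    (fun i a => by
      have := w1 i a
      omega) w2
  have r : ∀ x, x < N → x ∈ ((range N : Finset ℕ) : Set ℕ) := fun x a => mem_coe.2 (mem_range.2 a)
  obtain ⟨S', hS'⟩ : ∃ S' : ℕ → Finset ℕ, ∀ p q, q ∈ S' p ↔
      N - t ≤ p ∧ q < s ∧ v q ∈ S (N - 1 - p) :=
    ⟨fun p => (range s).filter (fun q => N - t ≤ p ∧ v q ∈ S (N - 1 - p)), fun p q => by
      rw [mem_filter, mem_range]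
      exact and_left_comm⟩
  refine ⟨v, ω, bf, S', hv, ⟨fun p q a => hs _ _ a, fun p => hi _, eN, hc, hcD, hsD, htD, hB, em,
    by omega, by omega, fun x a b => ?_, ?_, fun i a => ?_, w1, w2, w3, w4,
    fun p a => w5 p (by omega), fun i a => ?_, fun p q a => ⟨((hS' p q).1 a).2.1, ((hS' p q).1 a).1⟩,
    fun j a b => ?_, fun j a b => ?_⟩, fun i a q b e => ?_⟩
  · rw [reindex hv (h (v x))]
    refine d.deg _ (hv.mapsTo (r x b)) fun i i1 e => ?_
    rw [← v1 i (by omega)] at e
    have := hv.injOn (r i (by omega)) (r x b) e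
    omega
  · refine le_trans (le_of_eq ?_) hsum
    congr 1
    refine sum_nbij v (fun x hx => hv.mapsTo hx) hv.injOn hv.surjOn fun x _ => ?_
    exact reindex hv (h (v x))
  · show h (v i) (v (ω i))
    rw [v1 i (by omega), v3 i a]
    exact d.par i a
  · have e : sg s c (fun p q => h (v p) (v q)) ω i = sig h g s c i := by
      unfold sg sig
      congr 1
      · congr 1
        · refine congrArg card (filter_congr fun k hk => ?_)
          have := mem_range.1 hk
          simp only [v1 i (by omega), v1 k (by omega)]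
        · refine congrArg card (filter_congr fun k hk => ?_)
          have := mem_Ico.1 hk
          simp only [v1 i (by omega), v1 k (by omega)]
      · refine congrArg card (filter_congr fun k hk => ?_)
        have := mem_Ioo.1 hk
        simp only [v1 i (by omega), v1 k (by omega), v3 k this.2]
    rw [w6 i a, sg', e]
    refine congrArg (sig h g s c i + ·) (card_bij (fun j _ => N - 1 - j) (fun j hj => ?_)
      (fun j hj k hk e => ?_) fun p hp => ?_)
    · obtain ⟨a1, a2, a3⟩ := mem_filter.1 hj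
      have := mem_range.1 a1
      refine mem_filter.2 ⟨mem_Ico.2 ⟨by omega, by omega⟩, (hS' _ _).2 ⟨by omega, a, ?_⟩, ?_⟩
      · rwa [v1 i (by omega), show N - 1 - (N - 1 - j) = j by omega]
      · show ¬ h (v i) (v (N - 1 - j))
        rwa [v1 i (by omega), v5 j (by omega)]
    · have := mem_range.1 (mem_filter.1 hj).1
      have := mem_range.1 (mem_filter.1 hk).1
      omega
    · obtain ⟨a1, a2, a3⟩ := mem_filter.1 hp
      have := mem_Ico.1 a1
      have e1 : N - 1 - (N - 1 - p) = p := by omega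
      refine ⟨N - 1 - p, mem_filter.2 ⟨mem_range.2 (by omega), ?_, ?_⟩, e1⟩
      · rw [← v1 i (by omega)]
        exact ((hS' _ _).1 a2).2.2
      · rw [← v1 i (by omega), ← v5 _ (by omega), e1]
        exact a3
  · obtain ⟨k, rfl⟩ : ∃ k, j = s + k := ⟨j - s, by omega⟩
    show h (v (s + k)) (v (N - m + (s + k)))
    rw [v1 _ (by omega), v2 k (by omega)]
    exact d.bot k b
  · obtain ⟨i, hi', rfl⟩ : ∃ i, i < 3 * D ∧ j = m - 1 - i := ⟨m - 1 - j, by omega, by omega⟩
    have e1 : N - m + (m - 1 - i) = N - 1 - i := by omega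
    have t0 := d.top i hi'
    have y4 : ∀ k < i, v (m - 1 - k) = g (2 * s + 2 * c + k) := fun k a => v4 k (by omega)
    have y5 : ∀ k < i, v (N - 1 - k) = g (2 * s + 2 * c + 3 * D + k) := fun k a => v5 k (by omega)
    have e2 : m - 1 - i + 1 + i = m := by omega
    have e3 : N - 1 - i + 1 + i = N := by omega
    have t1 := cnt (h (g (2 * s + 2 * c + 3 * D + i))) e2 y4
    have t2 := cnt (h (g (2 * s + 2 * c + 3 * D + i))) e3 y5
    have t3 := cnt (h (g (2 * s + 2 * c + i))) e2 y4
    have t4 := cnt (h (g (2 * s + 2 * c + i))) e3 y5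
    have t5 : ((range N).filter (fun x => h (g (2 * s + 2 * c + 3 * D + i)) (v x) ∧
        h (g (2 * s + 2 * c + i)) (v x)) ∪ S' (N - 1 - i)).card ≤
        (U.filter (fun x => h (g (2 * s + 2 * c + 3 * D + i)) x ∧ h (g (2 * s + 2 * c + i)) x) ∪
          S i).card := by
      refine card_le_card_of_injOn v (fun x hx => ?_) (hv.injOn.mono fun x hx => ?_)
      · rcases mem_union.1 (mem_coe.1 hx) with a1 | a1
        · exact mem_coe.2 (mem_union_left _
            (mem_filter.2 ⟨hv.mapsTo (mem_filter.1 a1).1, (mem_filter.1 a1).2⟩))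
        · have := ((hS' _ _).1 a1).2.2
          rw [show N - 1 - (N - 1 - i) = i by omega] at this
          exact mem_coe.2 (mem_union_right _ this)
      · rcases mem_union.1 (mem_coe.1 hx) with a1 | a1
        · exact (mem_filter.1 a1).1
        · have := ((hS' _ _).1 a1).2.1
          exact r x (by omega)
    unfold pcost
    unfold tcost at t0
    beta_reduce at t0
    simp only [e1, v4 i hi', v5 i hi']
    omega
  · obtain ⟨-, k, k1, k2⟩ := d.sub i _ e
    rw [← v1 k (by omega)] at k2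
    obtain rfl : k = q := hv.injOn (r k (by omega)) (r q b) k2
    exact (hS' _ _).2 ⟨by omega, k1, by rwa [show N - 1 - (N - 1 - i) = i by omega]⟩

end Pool.Agent.MP_f65396_co.h15l
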