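import Pool.Agent.MP_f65396_co.h15l.Cor4
import Pool.Agent.MP_f65396_co.h15o.Main

/-! The wiring of the steps for graphs of order at most `(1 + ε) n`. -/

set_option autoImplicit false

namespace Pool.Agent.MP_f65396_co.h15l

open Finset
open Pool.Agent.MP_f65396_co.h15 (Dec)
open Pool.Agent.MP_f65396_co.h15o (Out2 ori2)

lemma dec3 {V : Type} {G : SimpleGraph V} {n : ℕ} (d : Dec G n) : Dec3 G n := by
  obtain ⟨H, a1, a2, a3, a4, a5, a6⟩ := d
  refine ⟨H, a1, a2, a3, a4, a5, fun i => ?_⟩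
  obtain ⟨a, b, e⟩ := a6 i
  refine ⟨a, b, b, fun u v r => ?_⟩
  have := e u v r
  tauto

theorem transfer (asm : Asm3S) {V : Type} [Fintype V] [DecidableEq V] (G : SimpleGraph V)
    (n c t : ℕ) (hE : G.edgeSet.ncard = n * (n + 1) / 2) (v : ℕ → V)
    (hv : ∀ p < n + c, ∀ q < n + c, v p = v q → p = q) (h k : V → V → Prop)
    (hg : ∀ a b, b ≠ a → ¬ h a b → G.Adj a b) {U : Finset V} {tc : ℕ → V} {tl : ℕ → Finset V}
    (T : St h U t tc tl)
    (hk : ∀ a b, k a b ↔ h a b ∨ ∃ i < t, (a = tc i ∧ b ∈ tl i) ∨ (b = tc i ∧ a ∈ tl i))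
    (S : ℕ → Finset ℕ) (hS : ∀ i < t, ∀ q < n + c, v q ∈ sv t tc tl i → q ∈ S (n + c - 1 - i))
    (O : Out3 (n + c) c t (fun p q => k (v p) (v q)) S) : Dec3 G n := by
  obtain ⟨x, z, A, L, o1, o2, o3, o4, o5, o6, o7, o8, o9⟩ := O
  have r1 : ∀ a, c ≤ a + c := fun a => by omega
  have r2 : ∀ a < n, a + c < n + c := fun a ha => by omega
  have cA : ∀ a < n, ((A (a + c)).image v).card = (A (a + c)).card := fun a ha =>
    card_image_of_injOn fun p hp q hq e =>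
      hv p (o2 _ (r1 a) (r2 a ha) p hp).1 q (o2 _ (r1 a) (r2 a ha) q hq).1 e
  have cL : ∀ a < n, ((L (a + c)).image v).card = (L (a + c)).card := fun a ha =>
    card_image_of_injOn fun p hp q hq e =>
      hv p (o3 _ (r1 a) (r2 a ha) p hp).1 q (o3 _ (r1 a) (r2 a ha) q hq).1 e
  have sy : ∀ a < n + c, ∀ b < n + c, ∀ a' < n + c, ∀ b' < n + c,
      s(v a, v b) = s(v a', v b') → s(a, b) = s(a', b') := by
    intro a ha b hb a' ha' b' hb' e
    rw [Sym2.eq_iff] at e ⊢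
    rcases e with e | e
    · exact Or.inl ⟨hv _ ha _ ha' e.1, hv _ hb _ hb' e.2⟩
    · exact Or.inr ⟨hv _ ha _ hb' e.1, hv _ hb _ ha' e.2⟩
  have ad : ∀ p < n + c, ∀ q < n + c, q ≠ p → ¬ k (v p) (v q) → G.Adj (v p) (v q) :=
    fun p hp q hq e r => hg _ _ (fun u => e (hv q hq p hp u)) fun u => r ((hk _ _).2 (Or.inl u))
  have nt : ∀ a b i, i < t → ∀ w ∈ tl i, ¬ k a b → s(a, b) ≠ s(tc i, w) := by
    intro a b i hi w hw r e
    refine r ((hk a b).2 (Or.inr ⟨i, hi, ?_⟩))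
    rcases Sym2.eq_iff.1 e with e | e
    · exact Or.inl ⟨e.1, e.2 ▸ hw⟩
    · exact Or.inr ⟨e.2, e.1 ▸ hw⟩
  obtain ⟨T', mT, cT⟩ : ∃ T' : ℕ → Finset V,
      (∀ a w, w ∈ T' a ↔ n - 1 - a < t ∧ w ∈ tl (n - 1 - a)) ∧
      ∀ a, (T' a).card = t - (n - 1 - a) := by
    refine ⟨fun a => if n - 1 - a < t then tl (n - 1 - a) else ∅, fun a w => ?_, fun a => ?_⟩
    · by_cases e : n - 1 - a < t <;> simp [e]
    · by_cases e : n - 1 - a < t
      · simp only [if_pos e]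
        exact T.cd _ e
      · simp only [if_neg e, card_empty]
        omega
  have av : ∀ a < n, n - 1 - a < t → ∀ w ∈ sv t tc tl (n - 1 - a), w ≠ v (x (a + c)) ∧
      w ≠ v (z (a + c)) ∧ w ∉ (A (a + c)).image v ∧ w ∉ (L (a + c)).image v := by
    intro a ha e w hw
    have f : ∀ q < n + c, v q = w → q ∈ S (a + c) := fun q hq u => by
      have := hS _ e q hq (u ▸ hw)
      rwa [show n + c - 1 - (n - 1 - a) = a + c by omega] at this
    obtain ⟨d1, d2⟩ := o1 _ (r1 a) (r2 a ha)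
    refine ⟨fun u => (o9 _ (r1 a) (r2 a ha) _ (f _ d1 u.symm)).1 rfl,
      fun u => (o9 _ (r1 a) (r2 a ha) _ (f _ d2 u.symm)).2.1 rfl, fun u => ?_, fun u => ?_⟩
    · obtain ⟨q, q1, q2⟩ := mem_image.1 u
      exact (o9 _ (r1 a) (r2 a ha) _ (f q (o2 _ (r1 a) (r2 a ha) q q1).1 q2)).2.2.1 q1
    · obtain ⟨q, q1, q2⟩ := mem_image.1 u
      exact (o9 _ (r1 a) (r2 a ha) _ (f q (o3 _ (r1 a) (r2 a ha) q q1).1 q2)).2.2.2 q1
  refine asm V G n (fun a => v (x (a + c))) (fun a => v (z (a + c))) (fun a => tc (n - 1 - a))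
    (fun a => (A (a + c)).image v) (fun a => (L (a + c)).image v) T' hE
    (fun a ha u hu => ?_) (fun a ha u hu => ?_) (fun a ha u hu => ?_) (fun a ha => ?_)
    (fun a ha => ?_) (fun b hb a ha u hu w hw e => ?_) (fun b hb a ha u hu w hw e => ?_)
    (fun b hb a ha u hu w hw e => ?_) (fun b hb a ha u hu w hw => ?_)
    (fun b hb a ha u hu w hw => ?_) (fun b hb a ha u hu w hw e => ?_)
  · obtain ⟨y, y1, rfl⟩ := mem_image.1 hu
    obtain ⟨b1, b2, b3⟩ := o2 _ (r1 a) (r2 a ha) y y1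
    exact ad _ (o1 _ (r1 a) (r2 a ha)).1 y b1 b2 b3
  · obtain ⟨y, y1, rfl⟩ := mem_image.1 hu
    obtain ⟨b1, b2, b3, b4, b5, b6, b7⟩ := o3 _ (r1 a) (r2 a ha) y y1
    obtain ⟨d1, d2⟩ := o1 _ (r1 a) (r2 a ha)
    refine ⟨ad _ d2 y b1 b2 b3, fun e => b4 (hv _ d2 _ d1 e), fun e => ?_,
      fun e => b6 (hv _ b1 _ d1 e), fun e => ?_⟩
    · obtain ⟨w, w1, w2⟩ := mem_image.1 e
      exact b5 (hv _ (o2 _ (r1 a) (r2 a ha) w w1).1 _ d2 w2 ▸ w1)
    · obtain ⟨w, w1, w2⟩ := mem_image.1 e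
      exact b7 (hv _ (o2 _ (r1 a) (r2 a ha) w w1).1 _ b1 w2 ▸ w1)
  · obtain ⟨e, hu⟩ := (mT a u).1 hu
    obtain ⟨-, b1, b2⟩ := T.ml _ e u hu
    obtain ⟨d1, d2, d3, d4⟩ := av a ha e (tc (n - 1 - a)) (by simp [sv, e])
    obtain ⟨f1, f2, f3, f4⟩ := av a ha e u (by simp [sv, e, hu])
    exact ⟨hg _ _ b1 b2, d1, d2, d3, d4, f1, f2, f3, f4⟩
  · have := o4 _ (r1 a) (r2 a ha)
    rw [cA a ha, cL a ha, cT]
    omega
  · rw [cA a (by omega), cL a (by omega), cA _ ha, cL _ ha, cT, cT,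
      show a + 1 + c = a + c + 1 by omega]
    exact ⟨(o5 _ (r1 a) (by omega)).1, (o5 _ (r1 a) (by omega)).2, by omega⟩
  · obtain ⟨y, y1, rfl⟩ := mem_image.1 hu
    obtain ⟨y', y2, rfl⟩ := mem_image.1 hw
    have := o6 _ (r1 b) (r2 b hb) _ (r1 a) (r2 a ha) y y1 y' y2
      (sy _ (o1 _ (r1 b) (r2 b hb)).1 _ (o2 _ (r1 b) (r2 b hb) y y1).1 _
        (o1 _ (r1 a) (r2 a ha)).1 _ (o2 _ (r1 a) (r2 a ha) y' y2).1 e)
    omega
  · obtain ⟨y, y1, rfl⟩ := mem_image.1 hu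
    obtain ⟨y', y2, rfl⟩ := mem_image.1 hw
    exact o7 _ (r1 b) (r2 b hb) _ (r1 a) (r2 a ha) y y1 y' y2
      (sy _ (o1 _ (r1 b) (r2 b hb)).1 _ (o2 _ (r1 b) (r2 b hb) y y1).1 _
        (o1 _ (r1 a) (r2 a ha)).2 _ (o3 _ (r1 a) (r2 a ha) y' y2).1 e)
  · obtain ⟨y, y1, rfl⟩ := mem_image.1 hu
    obtain ⟨y', y2, rfl⟩ := mem_image.1 hw
    have := o8 _ (r1 b) (r2 b hb) _ (r1 a) (r2 a ha) y y1 y' y2
      (sy _ (o1 _ (r1 b) (r2 b hb)).2 _ (o3 _ (r1 b) (r2 b hb) y y1).1 _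
        (o1 _ (r1 a) (r2 a ha)).2 _ (o3 _ (r1 a) (r2 a ha) y' y2).1 e)
    omega
  · obtain ⟨y, y1, rfl⟩ := mem_image.1 hu
    obtain ⟨e, hw⟩ := (mT a w).1 hw
    exact nt _ _ _ e w hw (o2 _ (r1 b) (r2 b hb) y y1).2.2
  · obtain ⟨y, y1, rfl⟩ := mem_image.1 hu
    obtain ⟨e, hw⟩ := (mT a w).1 hw
    exact nt _ _ _ e w hw (o3 _ (r1 b) (r2 b hb) y y1).2.2.1
  · obtain ⟨e1, hu⟩ := (mT b u).1 hu
    obtain ⟨e2, hw⟩ := (mT a w).1 hw
    have := T.dj _ e1 _ e2 u hu w hw e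
    omega

theorem wire (asm : Asm3S) (selA : SelAS) (selB : SelBS) (sel0 : Sel0S) (core0 : Core0S)
    (place : PlaceS) (plus : PlusS) (V : Type) [Fintype V] (G : SimpleGraph V) (n : ℕ)
    (hE : G.edgeSet.ncard = n * (n + 1) / 2) (hN : 10 ^ 10 * (G.support.ncard - n) ≤ n) :
    Dec3 G n := by
  classical
  obtain ⟨U, mU⟩ : ∃ U : Finset V, ∀ u, u ∈ U ↔ u ∈ G.support :=
    ⟨univ.filter (· ∈ G.support), by simp⟩
  have eU : G.support = U := Set.ext fun u => (mU u).symm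
  rw [eU, Set.ncard_coe_finset] at hN
  obtain ⟨N, hU⟩ : ∃ N, U.card = N := ⟨_, rfl⟩
  let h : V → V → Prop := fun u w => w ≠ u ∧ ¬ G.Adj u w
  have hs : ∀ u w, h u w → h w u := fun u w t => ⟨t.1.symm, fun k => t.2 k.symm⟩
  have hi : ∀ u, ¬ h u u := fun u t => t.1 rfl
  have hg : ∀ a b, b ≠ a → ¬ h a b → G.Adj a b := fun a b e r => by
    by_contra s
    exact r ⟨e, s⟩
  have d2 : ∑ u ∈ U, (U.filter (h u)).card + n * (n + 1) = N * (N - 1) := by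
    have a1 : ∑ u ∈ U, G.degree u = n * (n + 1) := by
      rw [sum_subset (subset_univ U) fun u _ hu => ?_, G.sum_degrees_eq_twice_card_edges,
        ← Set.ncard_coe_finset, SimpleGraph.coe_edgeFinset, hE]
      · exact Nat.two_mul_div_two_of_even (Nat.even_mul_succ_self n)
      · by_contra k
        obtain ⟨w, hw⟩ := (G.degree_pos_iff_exists_adj u).1 (Nat.pos_of_ne_zero k)
        exact hu ((mU u).2 ⟨w, hw⟩)
    rw [← a1, ← sum_add_distrib, ← hU, ← smul_eq_mul, ← sum_const]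
    refine sum_congr rfl fun u hu => ?_
    rw [← card_erase_of_mem hu, ← SimpleGraph.card_neighborFinset_eq_degree,
      ← card_union_of_disjoint]
    · congr 1
      ext w
      simp only [mem_union, mem_filter, SimpleGraph.mem_neighborFinset, mem_erase, h]
      constructor
      · rintro (t | t)
        · exact ⟨t.2.1, t.1⟩
        · exact ⟨t.ne.symm, (mU w).2 ⟨u, t.symm⟩⟩
      · intro t
        by_cases k : G.Adj u w
        · exact Or.inr k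
        · exact Or.inl ⟨t.2, t.1, k⟩
    · exact disjoint_left.2 fun w t k =>
        (mem_filter.1 t).2.2 ((G.mem_neighborFinset u w).1 k)
  rcases Nat.eq_zero_or_pos n with n0 | n0
  · subst n0
    have e : G = ⊥ := by
      rw [← SimpleGraph.edgeSet_eq_empty, ← Set.ncard_eq_zero (Set.toFinite _)]
      exact hE
    exact ⟨Fin.elim0, by simp [e], fun i => i.elim0, fun i => i.elim0, fun i => i.elim0,
      fun i => i.elim0, fun i => i.elim0⟩
  obtain ⟨c, c1, rfl⟩ : ∃ c, 1 ≤ c ∧ N = n + c := by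
    refine ⟨N - n, ?_⟩
    by_contra k
    have a : N * (N - 1) ≤ n * n := Nat.mul_le_mul (by omega) (by omega)
    have b : n * (n + 1) = n * n + n := by ring
    omega
  rw [hU, Nat.add_sub_cancel_left] at hN
  have H : G1 U h n c := ⟨hs, hi, hU, c1, hN, d2⟩
  have ij : ∀ v : ℕ → V, Set.BijOn v (range (n + c) : Finset ℕ) U →
      ∀ p < n + c, ∀ q < n + c, v p = v q → p = q := fun v v1 p hp q hq e =>
    v1.injOn (mem_coe.2 (mem_range.2 hp)) (mem_coe.2 (mem_range.2 hq)) e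
  have fin : ∀ (s t : ℕ) (g tc : ℕ → V) (tl : ℕ → Finset V),
      Dat U h c s (n / 10000) t g (sv t tc tl) → St h U t tc tl → 2 ≤ c → s ≤ n / 10000 →
      t ≤ c → Dec3 G n := by
    intro s t g tc tl a1 a2 a3 a4 a5
    let k : V → V → Prop := fun a b =>
      h a b ∨ ∃ i < t, (a = tc i ∧ b ∈ tl i) ∨ (b = tc i ∧ a ∈ tl i)
    obtain ⟨b1, b2, b3, b4⟩ := plus V U h k n c s (n / 10000) t g tc tl H a1 a2
      fun _ _ => Iff.rfl
    obtain ⟨v, ω, bf, S, v1, v2, v3⟩ := place V U k n c s (n / 10000) t g _ b1 b2 hU b4 b3 a3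
      (by omega) a4 (by omega) (by omega)
    exact transfer asm G n c t hE v (ij v v1) h k hg a2 (fun _ _ => Iff.rfl) S v3 (core1 ori2 v2)
  by_cases r : ∃ X, Tn U h n c X
  · obtain ⟨X, hX⟩ := r
    by_cases k : ∀ u ∈ U \ X, ∀ x ∈ X, ¬ h u x → ∀ y ∈ U \ X, ∀ y' ∈ U \ X, h y y' →
        y = u ∨ y' = u
    · obtain ⟨v, Z, v1, v2⟩ := sel0 V U h n c X H hX k
      exact dec3 (h15o.transfer G n c hE v (ij v v1) _
        (fun p hp q hq e r => hg _ _ (fun u => e (ij v v1 q hq p hp u)) r) (core0 _ _ _ _ _ _ v2))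
    · push Not at k
      obtain ⟨u, hu, x, hx, k1, y, hy, y', hy', k2, k3, k4⟩ := k
      obtain ⟨g, hg'⟩ := selB V U h n c X u x y y' H hX hu hx k1 hy hy' k2 k3 k4
      have c2 := card_pos.2 ⟨x, hx⟩
      have c3 := hX.2.1
      exact fin (c - 1) 0 g g (fun _ => ∅) hg' ⟨by simp, by simp, by simp, by simp⟩ (by omega)
        (by omega) (by omega)
  · obtain ⟨s, t, g, tc, tl, a1, a2, a3, a4, a5⟩ := selA V U h n c H fun Y hY => r ⟨Y, hY⟩
    exact fin s t g tc tl a1 a2 a3 a4 a5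

end Pool.Agent.MP_f65396_co.h15l
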